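import Mathlib

/-!
# MP_c0a969_gt : a ZFC counterexample (S13870).  Base file: hypotheses and definitions.

`I` is a well order of type `κ = λ⁺`, `L` a well order of type `λ`, where `λ = (2^ℵ₁)⁺`.
-/

set_option autoImplicit false
open Cardinal Set

namespace Pool.CpS

/-- standing assumptions on the two well orders `I` (of type `λ⁺`) and `L` (of type `λ`). -/
structure Hyp (I L : Type) [LinearOrder I] [WellFoundedLT I] [LinearOrder L] [WellFoundedLT L] :
    Prop where
  reg : (#L).IsRegular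
  al : ℵ₁ < #L
  pow : #L ^ (ℵ₁ : Cardinal.{0}) ≤ #L
  iioL : ∀ l : L, #(Iio l) < #L
  bddL : ∀ S : Set L, #S < #L → ∃ b, ∀ s ∈ S, s < b
  lt : #L < #I
  iioI : ∀ p : I, #(Iio p) ≤ #L
  bddI : ∀ S : Set I, #S ≤ #L → ∃ b, ∀ s ∈ S, s < b

section
variable (I L : Type) [LinearOrder I]

/-- the points of `I` of cofinality `≥ λ`. -/
def Gam : Set I := {α | ∀ S : Set I, S ⊆ Iio α → #S < #L → ∃ x < α, ∀ s ∈ S, s < x}

variable {I}

/-- `α` is closed under `nx`. -/
def Cl (nx : I → I) (α : I) : Prop := ∀ b < α, nx b < α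

/-- `T` is stationary. -/
def Stat (T : Set I) : Prop := ∀ nx : I → I, ∃ α ∈ T, Cl nx α

/-- `C` is closed in `γ`, in the form used for the construction. -/
def ClosedIn (C : Set I) (γ : I) : Prop :=
  ∀ s < γ, (∃ q ∈ C, q ≤ s) → ∃ q ∈ C, q ≤ s ∧ ∀ q' ∈ C, q' ≤ s → q' ≤ q

end

section
variable (I L : Type)

/-- a finite or countable tuple of basic sets `B(x, r) = V(x) ∩ {y | r < level y}`,
each coded by `((level, index), r)`. -/
abbrev Dat := ℕ → Option ((I × L) × I)

/-- a history: a partial function from `I` to `Dat`. -/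
abbrev Hist := I → Option (Dat I L)

variable {I L}

/-- domain of a history. -/
def dom (t : Hist I L) : Set I := {q | t q ≠ none}

/-- restriction of a history to the levels `< p`. -/
noncomputable def res [LinearOrder I] (t : Hist I L) (p : I) : Hist I L :=
  fun q => if q < p then t q else none

/-- formal histories below `c`. -/
def HH [LinearOrder I] (c : I) : Set (Hist I L) :=
  {t | dom t ⊆ Iio c ∧ #(dom t) ≤ ℵ₁ ∧
    ∀ q d j e, t q = some d → d j = some e → e.1.1 < q ∧ e.2 < q}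

end

/-- the combinatorial data: a coherent system `P`, the regions `U`, the codes of histories. -/
structure Par (I L : Type) [LinearOrder I] where
  P : I → Set I
  U : I → L → Set I
  code : I → Hist I L → ℕ → L
  P_lt : ∀ c, P c ⊆ Iio c
  P_coh : ∀ c p q, p ∈ P c → q ∈ P c → q < p → q ∈ P p
  U_lt : ∀ p h, U p h ⊆ Iio p
  U_disj : ∀ p h h' x, x ∈ U p h → x ∈ U p h' → h = h'
  code_inj : ∀ c t t' j j', t ∈ HH c → t' ∈ HH c → code c t j = code c t' j' → t = t' ∧ j = j'
  guess : ∀ nx : I → I, ∃ (γ : I) (C : Set I), C ⊆ P γ ∧ ClosedIn C γ ∧ #C ≤ ℵ₁ ∧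
    ¬ {p ∈ C | ∀ h, ∃ α, Cl nx α ∧ ∃ r < α, (∀ q ∈ P p, q ≤ r) ∧
      ∀ x, r < x → x < α → x ∈ U p h}.Countable

end Pool.CpS
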