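import Pool.Agent.CpS.T2

/-!
# Sep: finitely many distinct points are separated by basic sets cut at a given level

PROOF.  `Pt D` is T2, so the distinct points `y 0, …, y (n-1)` have pairwise disjoint open
neighbourhoods `O j` (`Set.Finite.t2_separation` or induction).  By `isOpen_iff` applied to `O j` at
`y j`: either `V D (y j) ⊆ O j`, put `r' j = r`; or there is `s < lev (y j)` with
`{u ∈ V D (y j) | s < lev u} ⊆ O j`, put `r' j = max r s`.  Then `B D (y j, r' j) ⊆ O j`.
-/

set_option autoImplicit false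
open Cardinal Set

namespace Pool.CpS

variable {I L : Type} [LinearOrder I] [WellFoundedLT I]

theorem exists_sep (D : Par I L) {n : ℕ} (y : Fin n → Pt D) (hy : Function.Injective y) (r : I)
    (hr : ∀ j, r < lev (y j)) :
    ∃ r' : Fin n → I, (∀ j, r ≤ r' j ∧ r' j < lev (y j)) ∧
      ∀ i j, i ≠ j → Disjoint (B D (y i, r' i)) (B D (y j, r' j)) := by
  obtain ⟨U, hU, hdis⟩ := (Set.finite_range y).t2_separation
  have h : ∀ j, ∃ rj : I, (r ≤ rj ∧ rj < lev (y j)) ∧ B D (y j, rj) ⊆ U (y j) := by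
    intro j
    rcases (isOpen_iff D (U (y j))).1 (hU (y j)).2 (y j) (hU (y j)).1 with h1 | ⟨s, hs, h1⟩
    · exact ⟨r, ⟨le_rfl, hr j⟩, fun u hu => h1 hu.1⟩
    · refine ⟨max r s, ⟨le_max_left _ _, max_lt (hr j) hs⟩, fun u hu => h1 ⟨hu.1, ?_⟩⟩
      exact (le_max_right _ _).trans_lt hu.2
  choose r' hr' hB using h
  refine ⟨r', hr', fun i j hij => ?_⟩
  have h2 : Disjoint (U (y i)) (U (y j)) :=
    hdis (Set.mem_range_self i) (Set.mem_range_self j) fun h => hij (hy h)
  exact h2.mono (hB i) (hB j)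

end Pool.CpS
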