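import Pool.Agent.CpS.Comp
import Pool.Agent.CpS.Sep

/-!
# Cap: every unbounded family of `n`-tuples has an uncountable subfamily separated by `n` disjoint
compact open sets.

PROOF.  `nx`: for `b : I` choose by `hb` an index `a b` with `max b β < lev (y (a b) j)` for all `j`,
and let `nx b` be a strict upper bound of the finite set `{lev (y (a b) j) | j}` (finite sets are
bounded: take the max over `Fin n`, then a point above it: `hb` itself gives points above any point).
If `Cl nx α` and `r < α` then for `a = a r`: `r < lev (y a j)`, `β < lev (y a j)`,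
`lev (y a j) < nx r < α` for all `j`.                                                       (*)
Take `γ`, `C` from `D.guess nx` and let `R` be the uncountable set of that statement.
For `p ∈ R` and every history `t` choose an index `a = A p t` and a datum `d = F p t` with:
   `d` is `Good D p t d`, `d k = some (y a k, r' k)` for `k < n`, `d k = none` for `k ≥ n`,
   `lev (y a k) < p`, `r' k < p`, `y a k ∈ B D (y a k, r' k)`, `β < lev (y a k)`.
 (From the clause for `h = D.code p t 0`: `α`, `r`; (*) gives `a`; `exists_sep` gives `r'` with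
  `r ≤ r' k < lev (y a k)`; `e.2 < s ≤ lev (y a k) < α` implies `r < s < α` so `s ∈ U p h`; also
  `lev (y a k) ∈ U p h ⊆ Iio p`.)
Recursion on `p` (`WellFounded.fix`): `T p = some (F p (res T p))` if `p ∈ R`,
`T p = some (fun _ => none)` if `p ∈ C \ R`, `T p = none` if `p ∉ C`.
`dom T = C`, and `T ∈ HH γ` (`#C ≤ ℵ₁`; `P_lt`), so `Valid D γ T`.
`W k = V D (node D γ T k) ∩ {u | β < lev u}` for `k < n`: compact (closed subset of a compact set),
open, pairwise disjoint (`V_node_disjoint` in T2.lean), and for `p ∈ R`,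
with `a = A p (res T p)`: `y a k ∈ K D p (res T p) (F p ..) k ⊆ V D (node D γ T k)` by `mem_V_node`.
The map `p ↦ A p (res T p)` is injective on `R`: the levels of `y a k` are in `(sup P p, p)`
(`lev_of_mem_K`) and for `p < p'` in `R ⊆ P γ` we have `p ∈ P p'`, so `lev (y a k) < p <
lev (y a' k)` (`n > 0`).  Hence `{a | ∀ j, y a j ∈ W j}` is uncountable.
-/

set_option autoImplicit false
open Cardinal Set

namespace Pool.CpS

variable {I L : Type} [LinearOrder I] [WellFoundedLT I]

theorem capture (D : Par I L) {A : Type} (n : ℕ) (hn : 0 < n) (y : A → Fin n → Pt D)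
    (hy : ∀ a, Function.Injective (y a)) (hb : ∀ b : I, ∃ a, ∀ j, b < lev (y a j)) (β : I) :
    ∃ W : Fin n → Set (Pt D), (∀ j, IsCompact (W j)) ∧ (∀ j, IsOpen (W j)) ∧
      (∀ i j, i ≠ j → Disjoint (W i) (W j)) ∧ (∀ j, ∀ u ∈ W j, β < lev u) ∧
      ¬ {a | ∀ j, y a j ∈ W j}.Countable := by
  classical
  choose a0 ha0 using fun b : I => hb (max b β)
  have hnx : ∀ b : I, ∃ m : I, ∀ j, lev (y (a0 b) j) < m := by
    intro b
    haveI : Nonempty I := ⟨β⟩
    obtain ⟨M, hM⟩ := (Finset.univ.image fun j => lev (y (a0 b) j)).exists_le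
    obtain ⟨a', ha'⟩ := hb M
    exact ⟨lev (y a' ⟨0, hn⟩), fun j => (hM _ (Finset.mem_image_of_mem _
      (Finset.mem_univ j))).trans_lt (ha' _)⟩
  choose nx hnx using hnx
  obtain ⟨γ, C, hCP, hCc, hCcard, hunc⟩ := D.guess nx
  set R : Set I := {p ∈ C | ∀ h, ∃ α, Cl nx α ∧ ∃ r < α, (∀ q ∈ D.P p, q ≤ r) ∧
      ∀ x, r < x → x < α → x ∈ D.U p h} with hR
  haveI : Nonempty A := ⟨a0 β⟩
  have key : ∀ p ∈ R, ∀ t : Hist I L, ∃ (a : A) (d : Dat I L), Good D p t d ∧
      (∀ k : Fin n, ∃ r' : I, d k = some ((y a k : I × L), r') ∧ r' < p ∧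
        y a k ∈ B D ((y a k : I × L), r') ∧ lev (y a k) < p ∧ β < lev (y a k)) ∧
      (∀ k : ℕ, n ≤ k → d k = none) := by
    intro p hp t
    obtain ⟨α, hα, r, hr, hP, hU⟩ := hp.2 (D.code p t 0)
    have h1 : ∀ j, r < lev (y (a0 r) j) := fun j => (le_max_left _ _).trans_lt (ha0 r j)
    have h2 : ∀ j, β < lev (y (a0 r) j) := fun j => (le_max_right _ _).trans_lt (ha0 r j)
    have h3 : ∀ j, lev (y (a0 r) j) < α := fun j => (hnx r j).trans (hα r hr)
    obtain ⟨r', hr', hdis⟩ := exists_sep D (y (a0 r)) (hy _) r h1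
    have hlp : ∀ j, lev (y (a0 r) j) < p := fun j =>
      D.U_lt p (D.code p t 0) (hU _ (h1 j) (h3 j))
    refine ⟨a0 r, fun k => if h : k < n then
      some ((y (a0 r) ⟨k, h⟩ : I × L), r' ⟨k, h⟩) else none, ⟨?_, ?_⟩, ?_, ?_⟩
    · intro k e he
      by_cases hk : k < n
      · simp only [hk, dif_pos, Option.some.injEq] at he
        subst he
        refine ⟨fun q hq => (hP q hq).trans (hr' _).1, fun s hs hs' => ?_⟩
        exact hU s ((hr' _).1.trans_lt hs) (lt_of_le_of_lt hs' (h3 _))
      · simp [hk] at he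
    · intro k k' e e' hkk' he he'
      by_cases hk : k < n
      · by_cases hk' : k' < n
        · simp only [hk, hk', dif_pos, Option.some.injEq] at he he'
          subst he he'
          exact hdis _ _ (fun h => hkk' (congrArg Fin.val h))
        · simp [hk'] at he'
      · simp [hk] at he
    · intro k
      refine ⟨r' k, ?_, ?_, ⟨self_mem_V D _, (hr' k).2⟩, hlp k, h2 k⟩
      · exact dif_pos k.2
      · exact (hr' k).2.trans (hlp k)
    · intro k hk
      simp [Nat.not_lt.2 hk]
  choose! Af F hF using key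
  obtain ⟨T, hT⟩ : ∃ T : Hist I L, ∀ p, T p = if p ∈ R then some (F p (res T p)) else
      if p ∈ C then some (fun _ => none) else none := by
    refine ⟨(wellFounded_lt (α := I)).fix (fun p rec => if p ∈ R then
      some (F p (fun q => if h : q < p then rec q h else none)) else
      if p ∈ C then some (fun _ => none) else none), fun p => ?_⟩
    rw [WellFounded.fix_eq]
    rfl
  have hdom : dom T = C := by
    ext p
    simp only [dom, mem_setOf_eq]
    rw [hT p]
    by_cases hp : p ∈ R
    · simp [hp, show p ∈ C from hp.1]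
    · by_cases hp' : p ∈ C
      · simp [hp, hp']
      · simp [hp, hp']
  have hTR : ∀ p ∈ R, T p = some (F p (res T p)) := fun p hp => by rw [hT p, if_pos hp]
  have hval : Valid D γ T := by
    refine ⟨⟨?_, ?_, ?_⟩, ?_, ?_⟩
    · rw [hdom]
      exact hCP.trans (D.P_lt γ)
    · rw [hdom]
      exact hCcard
    · intro q d j e hq hd
      by_cases hqR : q ∈ R
      · rw [hTR q hqR] at hq
        obtain ⟨-, h2, h3⟩ := hF q hqR (res T q)
        simp only [Option.some.injEq] at hq
        subst hq
        by_cases hj : j < n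
        · obtain ⟨r', hd', hr', -, hl, -⟩ := h2 ⟨j, hj⟩
          have hd'' := Option.some.inj (hd.symm.trans hd')
          subst hd''
          exact ⟨hl, hr'⟩
        · rw [h3 j (not_lt.1 hj)] at hd
          exact absurd hd (by simp)
      · rw [hT q, if_neg hqR] at hq
        by_cases hqC : q ∈ C
        · rw [if_pos hqC] at hq
          simp only [Option.some.injEq] at hq
          subst hq
          simp at hd
        · rw [if_neg hqC] at hq
          simp at hq
    · rw [hdom]
      exact hCP
    · rw [hdom]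
      exact hCc
  have hclosed : IsClosed {u : Pt D | β < lev u} := by
    have := (isOpen_le D β).isClosed_compl
    convert this using 1
    ext u
    simp
  have hmem : ∀ p ∈ R, ∀ k : Fin n,
      y (Af p (res T p)) k ∈ K D p (res T p) (F p (res T p)) k := by
    intro p hp k
    obtain ⟨h1, h2, -⟩ := hF p hp (res T p)
    obtain ⟨r', hd, -, hB, -, -⟩ := h2 k
    exact ⟨h1, _, hd, hB⟩
  refine ⟨fun k => V D (node D γ T k) ∩ {u | β < lev u}, ?_, ?_, ?_, ?_, ?_⟩
  · exact fun j => (isCompact_V D _).inter_right hclosed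
  · exact fun j => (isOpen_V D _).inter (isOpen_lt D β)
  · intro i j hij
    exact (V_node_disjoint D hval (fun h => hij (Fin.ext h))).mono inter_subset_left
      inter_subset_left
  · exact fun j u hu => hu.2
  · intro hcount
    apply hunc
    have hinj : InjOn (fun p => Af p (res T p)) R := by
      have aux : ∀ p ∈ R, ∀ p' ∈ R, p < p' → Af p (res T p) ≠ Af p' (res T p') := by
        intro p hp p' hp' hlt heq
        have hpp : p ∈ D.P p' := D.P_coh γ p' p (hCP hp'.1) (hCP hp.1) hlt
        have e1 := (lev_of_mem_K D (hmem p hp ⟨0, hn⟩)).2.1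
        have e2 := (lev_of_mem_K D (hmem p' hp' ⟨0, hn⟩)).2.2 p hpp
        rw [← heq] at e2
        exact absurd (e1.trans e2) (lt_irrefl _)
      intro p hp p' hp' heq
      rcases lt_trichotomy p p' with h | h | h
      · exact absurd heq (aux p hp p' hp' h)
      · exact h
      · exact absurd heq.symm (aux p' hp' p hp h)
    refine Set.countable_of_injective_of_countable_image hinj (hcount.mono ?_)
    rintro _ ⟨p, hp, rfl⟩ k
    refine ⟨?_, ?_⟩
    · rw [mem_V_node D hval]
      exact Or.inr ⟨p, F p (res T p), hTR p hp, Or.inr (hmem p hp k)⟩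
    · obtain ⟨-, h2, -⟩ := hF p hp (res T p)
      obtain ⟨r', -, -, -, -, hβ⟩ := h2 k
      exact hβ

end Pool.CpS
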