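import Pool.Agent.CpS.Base

/-!
# Code: there are at most `λ` formal histories below `c`

PROOF.  Fix `c`.  Every `t ∈ HH c` is determined by its graph
`gr t = {(q, d) | t q = some d} : Set (I × Dat I L)`, and `gr t ⊆ Iio c ×ˢ Low` with
`Low = {d | ∀ j e, d j = some e → e.1.1 < c ∧ e.2 < c}`, `#(gr t) = #(dom t) ≤ ℵ₁`
(`(q, d) ↦ q` is injective on the graph, with image in `dom t`).
`#Low ≤ #(ℕ → Option ((Iio c × L) × Iio c)) ≤ #L ^ ℵ₀ ≤ #L ^ ℵ₁ ≤ #L`  (use `H.iioI c`, `#L` infinite,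
`H.pow`).  So `#(Iio c ×ˢ Low) ≤ #L * #L = #L` and by `Cardinal.mk_bounded_subset_le` the set of all
subsets of `Iio c ×ˢ Low` of size `≤ ℵ₁` has size `≤ (max #L ℵ₀) ^ ℵ₁ = #L ^ ℵ₁ ≤ #L`.
Hence `#(HH c) ≤ #L` and `#(HH c × ℕ) ≤ #L`: take an injection `HH c × ℕ → L` and extend it.
-/

set_option autoImplicit false
open Cardinal Set

namespace Pool.CpS

namespace CodeAux

variable {I L : Type} [LinearOrder I]

/-- data with entries below `c` -/
abbrev LowDat (I L : Type) [LinearOrder I] (c : I) : Type := ℕ → Option ((Iio c × L) × Iio c)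

/-- the coercion of data -/
def dd {c : I} (a : LowDat I L c) : Dat I L :=
  fun n => (a n).map fun e => (((e.1.1 : I), e.1.2), (e.2 : I))

lemma dd_inj {c : I} : Function.Injective (dd (I := I) (L := L) (c := c)) := by
  intro a b h
  funext n
  have h1 := congrFun h n
  unfold dd at h1
  refine Option.map_injective ?_ h1
  rintro ⟨⟨⟨x, hx⟩, l⟩, ⟨y, hy⟩⟩ ⟨⟨⟨x', hx'⟩, l'⟩, ⟨y', hy'⟩⟩ h2
  simp only [Prod.mk.injEq] at h2
  obtain ⟨⟨rfl, rfl⟩, rfl⟩ := h2
  rfl

lemma exists_dd {c : I} (d : Dat I L) (h : ∀ j e, d j = some e → e.1.1 < c ∧ e.2 < c) :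
    ∃ a : LowDat I L c, dd a = d := by
  have h1 : ∀ j, ∃ x : Option ((Iio c × L) × Iio c),
      x.map (fun e => (((e.1.1 : I), e.1.2), (e.2 : I))) = d j := by
    intro j
    rcases hd : d j with _ | e
    · exact ⟨none, rfl⟩
    · exact ⟨some ((⟨e.1.1, (h j e hd).1⟩, e.1.2), ⟨e.2, (h j e hd).2⟩), rfl⟩
  choose a ha using h1
  exact ⟨a, funext ha⟩

/-- the graph of a history -/
def gr (c : I) (t : Hist I L) : Set (Iio c × LowDat I L c) := {a | t a.1 = some (dd a.2)}

lemma gr_sub {c : I} {t t' : Hist I L} (ht : t ∈ HH c) (h : gr c t = gr c t') (q : I)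
    (d : Dat I L) (hd : t q = some d) : t' q = some d := by
  have hq : q < c := ht.1 (show t q ≠ none by rw [hd]; simp)
  obtain ⟨a, rfl⟩ := exists_dd (c := c) d fun j e he =>
    ⟨(ht.2.2 q d j e hd he).1.trans hq, (ht.2.2 q d j e hd he).2.trans hq⟩
  have h1 : ((⟨q, hq⟩ : Iio c), a) ∈ gr c t := hd
  rw [h] at h1
  exact h1

lemma gr_inj {c : I} {t t' : Hist I L} (ht : t ∈ HH c) (ht' : t' ∈ HH c)
    (h : gr c t = gr c t') : t = t' := by
  funext q
  rcases hd : t q with _ | d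
  · rcases hd' : t' q with _ | d'
    · rfl
    · rw [gr_sub ht' h.symm q d' hd'] at hd
      exact absurd hd (by simp)
  · exact (gr_sub ht h q d hd).symm

lemma mk_gr {c : I} {t : Hist I L} (ht : t ∈ HH c) : #(gr c t) ≤ ℵ₁ := by
  refine le_trans ?_ ht.2.1
  refine mk_le_of_injective (f := fun a : gr c t => (⟨(a.1.1 : I), by
    have h : t a.1.1 = some (dd a.1.2) := a.2
    show t a.1.1 ≠ none
    rw [h]
    simp⟩ : dom t)) ?_
  rintro ⟨⟨q, a⟩, ha⟩ ⟨⟨q', a'⟩, ha'⟩ h
  simp only [Subtype.mk.injEq] at h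
  have h1 : q = q' := Subtype.ext h
  subst h1
  have h2 : t q = some (dd a) := ha
  have h3 : t q = some (dd a') := ha'
  rw [h2] at h3
  have h4 := dd_inj (Option.some.inj h3)
  subst h4
  rfl

variable [WellFoundedLT I] [LinearOrder L] [WellFoundedLT L]

lemma mk_HH (H : Hyp I L) (c : I) : #(HH c : Set (Hist I L)) ≤ #L := by
  have hinf : ℵ₀ ≤ #L := H.reg.aleph0_le
  have h0 : #L ≠ 0 := fun h => by
    rw [h] at hinf
    exact absurd hinf (not_le.2 aleph0_pos)
  have hpow : #L ^ (ℵ₀ : Cardinal.{0}) ≤ #L :=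
    (power_le_power_left h0 (aleph0_le_aleph 1)).trans H.pow
  have h1 : #(Option ((Iio c × L) × Iio c)) ≤ #L := by
    rw [mk_option]
    refine add_le_of_le hinf ?_ (one_le_aleph0.trans hinf)
    simp only [mk_prod, lift_id]
    exact mul_le_of_le hinf (mul_le_of_le hinf (H.iioI c) le_rfl) (H.iioI c)
  have h2 : #(LowDat I L c) ≤ #L := by
    rw [show #(LowDat I L c) = #(Option ((Iio c × L) × Iio c)) ^ (ℵ₀ : Cardinal.{0}) by
      rw [← mk_nat, power_def]]
    exact (power_le_power_right h1).trans hpow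
  have h3 : #(Iio c × LowDat I L c) ≤ #L := by
    rw [mk_prod, lift_id, lift_id]
    exact mul_le_of_le hinf (H.iioI c) h2
  have h4 : #(HH c : Set (Hist I L)) ≤ #{s : Set (Iio c × LowDat I L c) // #s ≤ ℵ₁} := by
    refine mk_le_of_injective (f := fun t : (HH c : Set (Hist I L)) =>
      (⟨gr c t.1, mk_gr t.2⟩ : {s : Set (Iio c × LowDat I L c) // #s ≤ ℵ₁})) ?_
    intro t t' h
    exact Subtype.ext (gr_inj t.2 t'.2 (congrArg Subtype.val h))
  refine h4.trans ((mk_bounded_set_le _ _).trans ?_)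
  exact (power_le_power_right (max_le h3 hinf)).trans H.pow

end CodeAux

open CodeAux in
theorem exists_code {I L : Type} [LinearOrder I] [WellFoundedLT I] [LinearOrder L]
    [WellFoundedLT L] (H : Hyp I L) :
    ∃ code : I → Hist I L → ℕ → L, ∀ c t t' j j', t ∈ HH c → t' ∈ HH c →
      code c t j = code c t' j' → t = t' ∧ j = j' := by
  classical
  have hinf : ℵ₀ ≤ #L := H.reg.aleph0_le
  have h1 : ∀ c : I, ∃ f : ↥(HH (I := I) (L := L) c) × ℕ → L, Function.Injective f := by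
    intro c
    have h2 : #(↥(HH (I := I) (L := L) c) × ℕ) ≤ #L := by
      simp only [mk_prod, lift_id]
      exact mul_le_of_le hinf (mk_HH H c) (mk_nat.le.trans hinf)
    obtain ⟨f⟩ := h2
    exact ⟨f, f.injective⟩
  choose f hf using h1
  haveI : Nonempty L := by
    rw [← mk_ne_zero_iff]
    intro h
    rw [h] at hinf
    exact absurd hinf (not_le.2 aleph0_pos)
  refine ⟨fun c t j => if h : t ∈ HH c then f c (⟨t, h⟩, j) else Classical.arbitrary L, ?_⟩
  intro c t t' j j' ht ht' h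
  dsimp only at h
  rw [dif_pos ht, dif_pos ht'] at h
  have h3 := hf c h
  rw [Prod.mk.injEq, Subtype.mk.injEq] at h3
  exact h3

end Pool.CpS
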