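import Pool.Agent.CpS.Base

/-!
# Col: Ulam matrix: `Gam` splits into `#(ℕ → L)` many stationary sets

PROOF.  For `α : I` let `e α : I → L` be injective on `Iio α` (`H.iioI α`).
(1) for every `β : I` there is `j : L` with `Stat {α ∈ Gam I L | β < α ∧ e α β = j}`.  Otherwise for
    every `j` there is `nx j : I → I` with no `α` in that set closed under `nx j`.  Let `nx b` be a
    strict upper bound of `{nx j b | j : L} ∪ {β}` (`H.bddI`).  `hG` gives `α ∈ Gam` closed under `nx`;
    `α` is not minimal (`α ∈ Gam` with `S = ∅` gives some `x < α`), so `β < nx x < α`; put `j = e α β`: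
    `α` is closed under `nx j` since `nx j b < nx b < α`. Contradiction.
(2) choose `j β` by (1).  Since `#L < #I` and `#L` is infinite, some fibre of `j : I → L` has size
    `> #L` or at least `≥ #L`  (if all fibres had size `≤ #L`... `#I ≤ #L * #L = #L`); say
    `J = {β | j β = j₀}`, `#L ≤ #J`.
(3) `#(ℕ → L) = #L ^ ℵ₀ ≤ #L ^ ℵ₁ ≤ #L ≤ #J` (`H.pow`), so there is an injection
    `β : (ℕ → L) → J`.  Let `Γ g = {α ∈ Gam | β g < α ∧ e α (β g) = j₀}`; these are stationary and
    pairwise disjoint (`e α` is injective on `Iio α`).  Put `col α = g` if `α ∈ Γ g` (choice; unique)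
    and anything otherwise.  Then `Γ g ⊆ {α ∈ Gam | col α = g}`.
-/

set_option autoImplicit false
open Cardinal Set

namespace Pool.CpS

private theorem Col_stat_mono {I : Type} [LinearOrder I] {S T : Set I} (h : S ⊆ T) (hS : Stat S) : Stat T := by
  intro nx
  obtain ⟨α, hα, hc⟩ := hS nx
  exact ⟨α, h hα, hc⟩

/-- Step (1). -/
private theorem col_step {I L : Type} [LinearOrder I] [WellFoundedLT I] [LinearOrder L]
    [WellFoundedLT L] (H : Hyp I L) (hG : Stat (Gam I L)) (e : I → I → L) (β : I) :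
    ∃ j : L, Stat {α | α ∈ Gam I L ∧ β < α ∧ e α β = j} := by
  by_contra hcon
  push Not at hcon
  have h1 : ∀ j : L, ∃ nx : I → I, ∀ α, α ∈ Gam I L → β < α → e α β = j → ¬ Cl nx α := by
    intro j
    have h2 := hcon j
    rw [Stat] at h2
    push Not at h2
    obtain ⟨nx, hnx⟩ := h2
    exact ⟨nx, fun α h3 h4 h5 => hnx α ⟨h3, h4, h5⟩⟩
  choose nx hnx using h1
  have hinf : ℵ₀ ≤ #L := (Cardinal.aleph0_le_aleph 1).trans H.al.le
  have h2 : ∀ b : I, ∃ c : I, (∀ j, nx j b < c) ∧ β < c := by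
    intro b
    obtain ⟨c, hc⟩ := H.bddI (insert β (range fun j : L => nx j b)) (by
      refine (Cardinal.mk_insert_le).trans ?_
      refine (add_le_add_left (Cardinal.mk_range_le) 1).trans ?_
      rw [Cardinal.add_one_eq hinf])
    exact ⟨c, fun j => hc _ (mem_insert_of_mem _ ⟨j, rfl⟩), hc _ (mem_insert _ _)⟩
  choose mx hmx1 hmx2 using h2
  obtain ⟨α, hα, hcl⟩ := hG mx
  obtain ⟨x, hx, -⟩ := hα ∅ (empty_subset _) (by
    rw [Cardinal.mk_eq_zero]
    exact lt_of_lt_of_le Cardinal.aleph0_pos hinf)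
  have hβ : β < α := (hmx2 x).trans (hcl x hx)
  exact hnx (e α β) α hα hβ rfl fun b hb => (hmx1 b _).trans (hcl b hb)

theorem exists_col {I L : Type} [LinearOrder I] [WellFoundedLT I] [LinearOrder L]
    [WellFoundedLT L] (H : Hyp I L) (hG : Stat (Gam I L)) :
    ∃ col : I → ℕ → L, ∀ g : ℕ → L, Stat {α ∈ Gam I L | col α = g} := by
  classical
  have hinf : ℵ₀ ≤ #L := (Cardinal.aleph0_le_aleph 1).trans H.al.le
  have hne : Nonempty L := by
    rw [← Cardinal.mk_ne_zero_iff]
    exact (lt_of_lt_of_le Cardinal.aleph0_pos hinf).ne'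
  -- the matrix
  have hE : ∀ α : I, ∃ f : I → L, InjOn f (Iio α) := by
    intro α
    obtain ⟨g⟩ := Cardinal.le_def _ _ |>.1 (H.iioI α)
    refine ⟨fun x => if h : x < α then g ⟨x, h⟩ else hne.some, ?_⟩
    intro x hx y hy hxy
    have hx' : x < α := hx
    have hy' : y < α := hy
    simp only [hx', hy', dif_pos] at hxy
    exact congrArg Subtype.val (g.injective hxy)
  choose e he using hE
  choose j hj using fun β : I => col_step H hG e β
  -- a large fibre
  have hsucc : Order.succ #L ≤ #I := Order.succ_le_of_lt H.lt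
  obtain ⟨j₀, hj₀⟩ := Cardinal.infinite_pigeonhole_card j (Order.succ #L) hsucc
    (hinf.trans (Order.le_succ _)) (by
      rw [(Cardinal.isRegular_succ hinf).cof_ord]
      exact Order.lt_succ _)
  have hcard : #(ℕ → L) ≤ #(j ⁻¹' {j₀}) := by
    have h1 : #(ℕ → L) = #L ^ (ℵ₀ : Cardinal.{0}) := by
      rw [← Cardinal.mk_nat, Cardinal.power_def]
    rw [h1]
    refine (Cardinal.power_le_power_left (by rwa [Cardinal.mk_ne_zero_iff])
      (Cardinal.aleph0_le_aleph 1)).trans (H.pow.trans ?_)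
    exact (Order.le_succ _).trans hj₀
  obtain ⟨b⟩ := Cardinal.le_def _ _ |>.1 hcard
  let Γ : (ℕ → L) → Set I := fun g => {α | α ∈ Gam I L ∧ (b g : I) < α ∧ e α (b g) = j₀}
  have hΓ : ∀ g, Stat (Γ g) := by
    intro g
    have h1 := hj (b g)
    have h2 : j (b g) = j₀ := (b g).2
    rw [h2] at h1
    exact h1
  have huniq : ∀ g g' α, α ∈ Γ g → α ∈ Γ g' → g = g' := by
    intro g g' α h1 h2
    have h3 : (b g : I) = b g' := he α h1.2.1 h2.2.1 (h1.2.2.trans h2.2.2.symm)
    exact b.injective (Subtype.ext h3)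
  refine ⟨fun α => if h : ∃ g, α ∈ Γ g then h.choose else fun _ => hne.some, fun g => ?_⟩
  refine Col_stat_mono ?_ (hΓ g)
  intro α hα
  refine ⟨hα.1, ?_⟩
  have hex : ∃ g, α ∈ Γ g := ⟨g, hα⟩
  simp only [hex, dif_pos]
  exact huniq _ _ α hex.choose_spec hα

end Pool.CpS
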