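import Pool.Agent.CpS.T2

/-!
# Comp: the sets `V z` are compact

PROOF.  Strong induction on `lev z`.  If `V D z = {z}` trivial.  Let `z = node D c t j`, valid.
(1) For `s < c` the set `V D z ∩ {u | lev u ≤ s}` is compact.  Let `Dm = dom t`.  It is the union of
  * `V D (node D q (res t q) j) ∪ K D q (res t q) d j` where `q` is the largest element of `Dm` with
    `q ≤ s` and `t q = some d` (it exists by `ClosedIn (dom t) c` if there is any element `≤ s`;
    otherwise this part is empty), and
  * `K D p₀ (res t p₀) d₀ j ∩ {u | lev u ≤ s}` where `p₀` is the least element of `Dm` with `s < p₀`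
    (empty if there is none).
  Proof of the equality (`mem_V_node`): let `u ∈ V D z`, `lev u ≤ s`.  `u ≠ z`.
   - `u = node D p (res t p) j`: `p ≤ s`, so `p ≤ q`; `p = q`: in the first part; `p < q`:
     `u ∈ V D (node D q (res t q) j)` by `mem_V_node` as `res t q p = t p`, `res (res t q) p = res t p`.
   - `u ∈ K D p (res t p) d' j`, `p ≤ s`: `p ≤ q`, same.
   - `u ∈ K D p (res t p) d' j`, `s < p`: `p₀ ≤ p`; if `p₀ < p` then `p₀ ∈ P p` (`D.P_coh c p p₀`), so
     `p₀ < lev u ≤ s < p₀` by `lev_of_mem_K`; so `p = p₀`.
   Conversely `V D (node D q ..) ⊆ V D z` by `V_res_subset` and its levels are `≤ q ≤ s`; the levels of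
   `K D q ..` are `< q`.
  Each piece is compact: `V D (node D q ..)` by induction (`q < c`), and `K D p .. d j` is empty or
  equals `B D e = V D e.1 ∩ {u | e.2 < lev u}` with `lev e.1 < p < c` (from `Valid`: the clause
  `e.1.1 < q` of `HH`), i.e. a closed subset of a compact set (`{u | r < lev u}` is clopen).
(2) `V D z` is compact: for an open cover (or an ultrafilter / `isCompact_of_finite_subcover`), some
  member contains `z`, hence (`isOpen_iff`) contains `V D z` or `{u ∈ V D z | s < lev u}` for some
  `s < c`; the rest `V D z ∩ {u | lev u ≤ s}` is compact by (1).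
-/

set_option autoImplicit false
open Cardinal Set

namespace Pool.CpS

variable {I L : Type} [LinearOrder I] [WellFoundedLT I]

theorem isClosed_lt (D : Par I L) (r : I) : IsClosed {u : Pt D | r < lev u} := by
  constructor
  have h : {u : Pt D | r < lev u}ᶜ = {u : Pt D | lev u ≤ r} := by
    ext u
    simp
  rw [h]
  exact isOpen_le D r

theorem isClosed_le (D : Par I L) (r : I) : IsClosed {u : Pt D | lev u ≤ r} := by
  constructor
  have h : {u : Pt D | lev u ≤ r}ᶜ = {u : Pt D | r < lev u} := by
    ext u
    simp
  rw [h]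
  exact isOpen_lt D r

theorem isCompact_B_of (D : Par I L) (e : (I × L) × I)
    (h : IsCompact (V D (e.1 : Pt D))) : IsCompact (B D e) :=
  h.inter_right (isClosed_lt D e.2)

theorem isCompact_K_of (D : Par I L) (p : I) (t : Hist I L) (d : Dat I L) (j : ℕ)
    (h : ∀ e, d j = some e → IsCompact (V D (e.1 : Pt D))) : IsCompact (K D p t d j) := by
  by_cases hg : Good D p t d ∧ ∃ e, d j = some e
  · obtain ⟨hg, e, he⟩ := hg
    have hK : K D p t d j = B D e := by
      ext u
      constructor
      · rintro ⟨-, e', he', hu⟩
        rw [he] at he'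
        cases he'
        exact hu
      · intro hu
        exact ⟨hg, e, he, hu⟩
    rw [hK]
    exact isCompact_B_of D e (h e he)
  · have hK : K D p t d j = ∅ := by
      ext u
      constructor
      · rintro ⟨hg', e', he', hu⟩
        exact hg ⟨hg', e', he'⟩
      · intro hu
        exact hu.elim
    rw [hK]
    exact isCompact_empty

/-- (1) -/
theorem isCompact_low (D : Par I L) {c : I} {t : Hist I L} (hv : Valid D c t) (j : ℕ)
    (ih : ∀ z : Pt D, lev z < c → IsCompact (V D z)) (s : I) (hs : s < c) :
    IsCompact (V D (node D c t j) ∩ {u | lev u ≤ s}) := by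
  have hKc : ∀ p d, t p = some d → IsCompact (K D p (res t p) d j) := by
    intro p d hp
    apply isCompact_K_of
    intro e he
    exact ih _ ((hv.1.2.2 p d j e hp he).1.trans (Valid.lt D hv hp).1)
  -- the first part
  have h1 : ∃ A : Set (Pt D), IsCompact A ∧ A ⊆ V D (node D c t j) ∩ {u | lev u ≤ s} ∧
      ∀ p d, t p = some d → p ≤ s →
        node D p (res t p) j ∈ A ∧ K D p (res t p) d j ⊆ A := by
    by_cases hex : ∃ q ∈ dom t, q ≤ s
    · obtain ⟨q, hq, hqs, hmax⟩ := hv.2.2 s hs hex
      obtain ⟨d, hd⟩ : ∃ d, t q = some d := by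
        cases h : t q with
        | none => exact absurd h hq
        | some d => exact ⟨d, rfl⟩
      have hqc := (Valid.lt D hv hd).1
      refine ⟨V D (node D q (res t q) j) ∪ K D q (res t q) d j,
        (ih (node D q (res t q) j) hqc).union (hKc q d hd), ?_, ?_⟩
      · rintro u (hu | hu)
        · exact ⟨V_res_subset D hv hd j hu, (lev_le_of_mem D hu).trans hqs⟩
        · refine ⟨(mem_V_node D hv j u).2 (Or.inr ⟨q, d, hd, Or.inr hu⟩), ?_⟩
          exact (lev_of_mem_K D hu).2.1.le.trans hqs
      · intro p d' hp hps
        have hpq : p ≤ q := hmax p (show t p ≠ none by rw [hp]; simp) hps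
        rcases hpq.lt_or_eq with hlt | heq
        · have hvq : Valid D q (res t q) := valid_res D hv hq
          have hp' : res t q p = some d' := (res_eq_some t).2 ⟨hlt, hp⟩
          have hrr : res (res t q) p = res t p := res_res t hlt.le
          refine ⟨Or.inl ?_, fun u hu => Or.inl ?_⟩
          · rw [mem_V_node D hvq]
            exact Or.inr ⟨p, d', hp', Or.inl (by rw [hrr])⟩
          · rw [mem_V_node D hvq]
            exact Or.inr ⟨p, d', hp', Or.inr (by rw [hrr]; exact hu)⟩
        · subst heq
          rw [hd] at hp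
          cases hp
          exact ⟨Or.inl (self_mem_V D _), fun u hu => Or.inr hu⟩
    · refine ⟨∅, isCompact_empty, empty_subset _, ?_⟩
      intro p d hp hps
      exact absurd ⟨p, show t p ≠ none by rw [hp]; simp, hps⟩ hex
  -- the second part
  have h2 : ∃ A : Set (Pt D), IsCompact A ∧ A ⊆ V D (node D c t j) ∩ {u | lev u ≤ s} ∧
      ∀ p d, t p = some d → s < p →
        K D p (res t p) d j ∩ {u | lev u ≤ s} ⊆ A := by
    by_cases hex : ∃ q ∈ dom t, s < q
    · obtain ⟨q, ⟨hq, hsq⟩, hmin⟩ := WellFounded.has_min (wellFounded_lt (α := I))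
        {q | q ∈ dom t ∧ s < q} hex
      obtain ⟨d, hd⟩ : ∃ d, t q = some d := by
        cases h : t q with
        | none => exact absurd h hq
        | some d => exact ⟨d, rfl⟩
      refine ⟨K D q (res t q) d j ∩ {u | lev u ≤ s},
        (hKc q d hd).inter_right (isClosed_le D s), ?_, ?_⟩
      · rintro u ⟨hu, hus⟩
        exact ⟨(mem_V_node D hv j u).2 (Or.inr ⟨q, d, hd, Or.inr hu⟩), hus⟩
      · rintro p d' hp hsp u ⟨hu, hus⟩
        have hpq : q ≤ p := by
          by_contra hlt
          exact hmin p ⟨show t p ≠ none by rw [hp]; simp, hsp⟩ (not_le.1 hlt)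
        rcases hpq.lt_or_eq with hlt | heq
        · exfalso
          have hqP : q ∈ D.P p := D.P_coh c p q (Valid.lt D hv hp).2 (Valid.lt D hv hd).2 hlt
          have h3 := (lev_of_mem_K D hu).2.2 q hqP
          have h4 : lev u ≤ s := hus
          exact absurd (h3.trans_le h4) (not_lt.2 hsq.le)
        · subst heq
          rw [hd] at hp
          cases hp
          exact ⟨hu, hus⟩
    · refine ⟨∅, isCompact_empty, empty_subset _, ?_⟩
      intro p d hp hps
      exact absurd ⟨p, show t p ≠ none by rw [hp]; simp, hps⟩ hex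
  obtain ⟨A, hA, hAs, hA'⟩ := h1
  obtain ⟨A2, hA2, hA2s, hA2'⟩ := h2
  have heq : V D (node D c t j) ∩ {u | lev u ≤ s} = A ∪ A2 := by
    apply Subset.antisymm
    · rintro u ⟨hu, hus⟩
      have hus' : lev u ≤ s := hus
      rcases (mem_V_node D hv j u).1 hu with rfl | ⟨p, d, hp, rfl | hK⟩
      · exact absurd hs (not_lt.2 hus')
      · exact Or.inl (hA' p d hp hus').1
      · rcases le_or_gt p s with hps | hps
        · exact Or.inl ((hA' p d hp hps).2 hK)
        · exact Or.inr (hA2' p d hp hps ⟨hK, hus⟩)
    · exact union_subset hAs hA2s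
  rw [heq]
  exact hA.union hA2

theorem isCompact_V (D : Par I L) (z : Pt D) : IsCompact (V D z) := by
  have key : ∀ c : I, ∀ z : Pt D, lev z = c → IsCompact (V D z) := by
    intro c
    induction c using WellFoundedLT.induction with
    | ind c ih =>
      intro z hz
      subst hz
      rcases node_or_isolated D z with ⟨t, j, hv, hzn⟩ | h
      · have ih' : ∀ z' : Pt D, lev z' < lev z → IsCompact (V D z') :=
          fun z' h => ih (lev z') h z' rfl
        apply isCompact_of_finite_subcover
        intro ι U hU hsub
        obtain ⟨i0, hi0⟩ := mem_iUnion.1 (hsub (self_mem_V D z))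
        rcases (isOpen_iff D (U i0)).1 (hU i0) z hi0 with h | ⟨s, hs, h⟩
        · exact ⟨{i0}, by simpa using h⟩
        · have hlow : IsCompact (V D z ∩ {u | lev u ≤ s}) := by
            have := isCompact_low D hv j ih' s hs
            rwa [← hzn] at this
          obtain ⟨T, hT⟩ := hlow.elim_finite_subcover U hU (inter_subset_left.trans hsub)
          classical
          refine ⟨insert i0 T, ?_⟩
          intro u hu
          rcases le_or_gt (lev u) s with hus | hus
          · have := hT ⟨hu, hus⟩
            simp only [mem_iUnion] at this ⊢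
            obtain ⟨i, hi, hui⟩ := this
            exact ⟨i, Finset.mem_insert_of_mem hi, hui⟩
          · simp only [mem_iUnion]
            exact ⟨i0, Finset.mem_insert_self _ _, h ⟨hu, hus⟩⟩
      · rw [h]
        exact isCompact_singleton
  exact key (lev z) z rfl

theorem isCompact_B (D : Par I L) (e : (I × L) × I) : IsCompact (B D e) :=
  isCompact_B_of D e (isCompact_V D _)

instance wlc (D : Par I L) : WeaklyLocallyCompactSpace (Pt D) where
  exists_compact_mem_nhds := fun z =>
    ⟨V D z, isCompact_V D z, (isOpen_V D z).mem_nhds (self_mem_V D z)⟩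

end Pool.CpS
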