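import Pool.Agent.CpS.Base

/-!
# Exist: `I` and `L` exist: `λ = (2 ^ ℵ₁)⁺`, `κ = λ⁺`

PROOF.  `L = (succ (2 ^ ℵ₁)).ord.ToType`, `I = (succ (succ (2 ^ ℵ₁))).ord.ToType`
(`Cardinal.{0}`), with their well orders.
* `#L = succ (2 ^ ℵ₁)` (`mk_toType`, `card_ord`), regular by `isRegular_succ`.
* `ℵ₁ < 2 ^ ℵ₁ < succ ..` (`cantor`).
* `iioL`, `iioI`: `Cardinal.mk_Iio_toType_ord_lt` (or the present name), and `lt_succ_iff` for `I`.
* `bddL`/`bddI`: a subset `S` of `κ.ord.ToType` with `#S < κ`, `κ` regular, is strictly bounded: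
  `Ordinal.lt_cof_type`-like lemma or: otherwise `univ = ⋃_{s ∈ S} Iic s` has size `< κ` by
  `card_biUnion_lt_iff_forall_of_isRegular`.
* `pow` (Hausdorff): with `μ = 2 ^ ℵ₁`, `#L = succ μ`: fix a type `A` with `#A = ℵ₁`.  Every
  `f : A → L` is bounded by some `b : L` (`bddL` for its range), so
  `#(A → L) ≤ Σ_{b : L} #(A → Iio b) ≤ succ μ * μ ^ ℵ₁ = succ μ`, as `#(Iio b) ≤ μ` and
  `μ ^ ℵ₁ = 2 ^ (ℵ₁ * ℵ₁) = μ`.
-/

set_option autoImplicit false
open Cardinal Set

namespace Pool.CpS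


theorem exist_bdd {c : Cardinal.{0}} (hc : c.IsRegular) (S : Set c.ord.ToType) (hS : #S < c) :
    ∃ b, ∀ s ∈ S, s < b := by
  by_contra hcon
  push Not at hcon
  have h1 : (Set.univ : Set c.ord.ToType) ⊆ ⋃ s, ⋃ (_ : s ∈ S), Iic s := by
    intro b _
    obtain ⟨s, hs, hb⟩ := hcon b
    exact mem_biUnion hs hb
  have h2 : #(⋃ s, ⋃ (_ : s ∈ S), Iic s : Set c.ord.ToType) < c := by
    rw [card_biUnion_lt_iff_forall_of_isRegular hc hS]
    intro s _
    have h3 : Iic s ⊆ insert s (Iio s) := by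
      intro x hx
      rcases eq_or_lt_of_le (mem_Iic.1 hx) with h | h
      · exact Or.inl h
      · exact Or.inr h
    refine (mk_le_mk_of_subset h3).trans_lt ?_
    refine mk_insert_le.trans_lt ?_
    exact add_lt_of_lt hc.aleph0_le (mk_Iio_toType_ord_lt s)
      (lt_of_lt_of_le one_lt_aleph0 hc.aleph0_le)
  have h4 := (mk_le_mk_of_subset h1).trans_lt h2
  rw [mk_univ, mk_ord_toType] at h4
  exact lt_irrefl _ h4

theorem exists_hyp : ∃ (I L : Type) (_ : LinearOrder I) (_ : WellFoundedLT I)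
    (_ : LinearOrder L) (_ : WellFoundedLT L), Hyp I L := by
  set μ : Cardinal.{0} := 2 ^ (ℵ₁ : Cardinal.{0}) with hμ
  have h1 : (ℵ₁ : Cardinal.{0}) < μ := cantor _
  have h0 : (ℵ₀ : Cardinal.{0}) ≤ ℵ₁ := (aleph0_lt_aleph_one).le
  have hμ0 : ℵ₀ ≤ μ := h0.trans h1.le
  have hreg : (Order.succ μ).IsRegular := isRegular_succ hμ0
  have hμs : μ < Order.succ μ := Order.lt_succ μ
  have hreg2 : (Order.succ (Order.succ μ)).IsRegular := isRegular_succ (hμ0.trans hμs.le)
  refine ⟨(Order.succ (Order.succ μ)).ord.ToType, (Order.succ μ).ord.ToType, inferInstance,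
    inferInstance, inferInstance, inferInstance, ?_⟩
  refine ⟨?_, ?_, ?_, ?_, ?_, ?_, ?_, ?_⟩
  · rw [mk_ord_toType]
    exact hreg
  · rw [mk_ord_toType]
    exact h1.trans hμs
  · -- Hausdorff
    set A : Type := (ℵ₁ : Cardinal.{0}).out with hA
    have hAc : #A = ℵ₁ := mk_out _
    set L : Type := (Order.succ μ).ord.ToType with hL
    have hLc : #L = Order.succ μ := mk_ord_toType _
    rw [← hAc, power_def]
    have hcov : (Set.univ : Set (A → L)) ⊆ ⋃ b : L, {f : A → L | ∀ a, f a < b} := by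
      intro f _
      obtain ⟨b, hb⟩ := exist_bdd hreg (range f) (by
        refine mk_range_le.trans_lt ?_
        rw [hAc]
        exact h1.trans hμs)
      exact mem_iUnion.2 ⟨b, fun a => hb _ (mem_range_self a)⟩
    have h2 : ∀ b : L, #{f : A → L | ∀ a, f a < b} ≤ μ := by
      intro b
      have h3 : #(Iio b) ≤ μ := by
        rw [← Order.lt_succ_iff]
        exact mk_Iio_toType_ord_lt b
      have h4 : #{f : A → L | ∀ a, f a < b} ≤ #(A → Iio b) := by
        refine mk_le_of_injective (f := fun f a => ⟨f.1 a, f.2 a⟩) ?_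
        intro f g hfg
        apply Subtype.ext
        funext a
        exact congrArg Subtype.val (congrFun hfg a)
      refine h4.trans ?_
      rw [← power_def, hAc]
      refine (power_le_power_right h3).trans ?_
      rw [hμ, ← power_mul, mul_eq_self h0]
    have h5 : #(A → L) ≤ #L * μ := by
      rw [← mk_univ]
      refine (mk_le_mk_of_subset hcov).trans ?_
      refine (mk_iUnion_le _).trans ?_
      exact mul_le_mul' le_rfl (ciSup_le' h2)
    refine h5.trans ?_
    rw [hLc]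
    refine (mul_le_mul' le_rfl hμs.le).trans ?_
    rw [mul_eq_self hreg.aleph0_le]
  · intro l
    rw [mk_ord_toType]
    exact mk_Iio_toType_ord_lt l
  · intro S hS
    rw [mk_ord_toType] at hS
    exact exist_bdd hreg S hS
  · rw [mk_ord_toType, mk_ord_toType]
    exact Order.lt_succ _
  · intro p
    rw [mk_ord_toType, ← Order.lt_succ_iff]
    exact mk_Iio_toType_ord_lt p
  · intro S hS
    rw [mk_ord_toType] at hS
    exact exist_bdd hreg2 S (Order.lt_succ_iff.2 hS)

end Pool.CpS
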