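import Pool.Agent.CpS.Comp

/-!
# One: the one-point compactification is scattered; isolated points

PROOF.  `scattered`: if `s` contains some `↑z`, choose such `z` with `lev z` minimal
(well-foundedness), and `U = (↑) '' V D z`, open (`OnePoint.isOpenEmbedding_coe`, `isOpen_V`);
`U ∩ s = {↑z}` because all other points of `V D z` have smaller level (`lev_lt_of_mem`).
Otherwise `s = {∞}`, `U = univ`.
`isClopen_image`: the image of a compact open subset of `Pt D` is open, and compact hence closed
(`Pt D` is T2 and weakly locally compact, so `OnePoint (Pt D)` is T2).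
`iso`: `iso D c = node D c (fun _ => none) 0` is a point of level `c` with `V D (iso D c) = {iso D c}`
(`mem_V_node`, `valid_none`), so `{↑(iso D c)}` is clopen.
-/

set_option autoImplicit false
open Cardinal Set

namespace Pool.CpS

variable {I L : Type} [LinearOrder I] [WellFoundedLT I]

theorem scattered (D : Par I L) (s : Set (OnePoint (Pt D))) (hs : s.Nonempty) :
    ∃ x ∈ s, ∃ U : Set (OnePoint (Pt D)), IsOpen U ∧ U ∩ s = {x} := by
  by_cases h : ∃ z : Pt D, (z : OnePoint (Pt D)) ∈ s
  · -- minimal level
    let A : Set I := {c | ∃ z : Pt D, lev z = c ∧ (z : OnePoint (Pt D)) ∈ s}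
    have hA : A.Nonempty := by
      obtain ⟨z, hz⟩ := h
      exact ⟨lev z, z, rfl, hz⟩
    obtain ⟨z, hzc, hzs⟩ := wellFounded_lt.min_mem A hA
    have hmin : ∀ y : Pt D, (y : OnePoint (Pt D)) ∈ s → ¬ lev y < lev z := by
      intro y hy hlt
      rw [hzc] at hlt
      exact wellFounded_lt.not_lt_min A (x := lev y) ⟨y, rfl, hy⟩ hlt
    refine ⟨z, hzs, (fun y : Pt D => (y : OnePoint (Pt D))) '' V D z,
      OnePoint.isOpenEmbedding_coe.isOpenMap _ (isOpen_V D z), ?_⟩
    ext x
    constructor
    · rintro ⟨⟨y, hy, rfl⟩, hys⟩
      rcases lev_lt_of_mem D hy with h1 | h1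
      · rw [h1]
        exact mem_singleton _
      · exact absurd h1 (hmin y hys)
    · intro hx
      rw [mem_singleton_iff] at hx
      subst hx
      exact ⟨⟨z, self_mem_V D z, rfl⟩, hzs⟩
  · obtain ⟨x, hx⟩ := hs
    refine ⟨x, hx, univ, isOpen_univ, ?_⟩
    rw [univ_inter]
    have hall : ∀ y ∈ s, y = OnePoint.infty := by
      intro y hy
      induction y using OnePoint.rec with
      | infty => rfl
      | coe z => exact absurd ⟨z, hy⟩ h
    ext y
    rw [mem_singleton_iff]
    constructor
    · intro hy
      rw [hall y hy, hall x hx]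
    · intro hy
      rw [hy]
      exact hx

instance t2One (D : Par I L) : T2Space (OnePoint (Pt D)) := inferInstance

theorem isClopen_image (D : Par I L) {W : Set (Pt D)} (hW : IsOpen W) (hc : IsCompact W) :
    IsClopen ((fun z : Pt D => (z : OnePoint (Pt D))) '' W) :=
  ⟨(hc.image OnePoint.continuous_coe).isClosed, OnePoint.isOpenEmbedding_coe.isOpenMap _ hW⟩

/-- an isolated point of level `c` -/
noncomputable def iso (D : Par I L) (c : I) : Pt D := node D c (fun _ => none) 0

theorem V_iso (D : Par I L) (c : I) : V D (iso D c) = {iso D c} := by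
  ext y
  unfold iso
  rw [mem_V_node D (valid_none D c), mem_singleton_iff]
  constructor
  · rintro (h | ⟨p, d, h, -⟩)
    · exact h
    · cases h
  · exact Or.inl

theorem isClopen_iso (D : Par I L) (c : I) :
    IsClopen ({((iso D c : Pt D) : OnePoint (Pt D))} : Set (OnePoint (Pt D))) := by
  have h := isClopen_image D (isOpen_V D (iso D c)) (isCompact_V D (iso D c))
  rw [V_iso, image_singleton] at h
  exact h

theorem iso_injective (D : Par I L) :
    Function.Injective (fun c : I => ((iso D c : Pt D) : OnePoint (Pt D))) := by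
  intro c c' h
  have h1 : iso D c = iso D c' := OnePoint.coe_injective h
  exact congrArg (fun z : Pt D => lev z) h1

end Pool.CpS
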