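import Pool.Agent.CpS.Thin
import Pool.Agent.CpS.One
import Pool.Agent.CpS.Cap

/-!
# Family: among `I` many basic open sets of `C_p(X)` uncountably many have a common point

`X = OnePoint (Pt D)`, `Pt D` has underlying type `I × L`.
PROOF.
(1) For every `c` let `m c = (F c).card`, `x c : Fin (m c) → X` an injective enumeration of `F c`,
   `N c : ℕ` with `1 / (N c + 1) < ε c`, and `q c : Fin (m c) → ℚ` with
   `|g c (x c j) - q c j| < 1 / (4 * (N c + 1))`.  The triples `(m c, N c, q c)` live in a countable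
   type (`Σ m, ℕ × (Fin m → ℚ)`), `#L < #I` and `#L ≥ ℵ₀`, so one fibre `A ⊆ I` has `#L < #A`
   (otherwise `#I ≤ ℵ₀ * #L = #L`).  So we have fixed `m`, `N`, `q`, and `x : A → Fin m → X` injective.
(2) `thin` with `J = I`, `S b = {∞} ∪ {↑z | lev z ≤ b}`; `#(S b) ≤ 1 + #(Iic b × L) ≤ #L`.
   Get `R`, `T`, `k`.  `T` is uncountable as `#L < #T`.
(3) If `R = univ`: all tuples for `a ∈ T` are equal to `k`; take `f = g a₀`, `a₀ ∈ T`:
   `|f (k j) - g a (k j)| ≤ |g a₀ (k j) - q j| + |q j - g a (k j)| < 1 / (N + 1) < ε a`.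
(4) Otherwise let `n = (univ \ R).card > 0`, enumerate `univ \ R` by `s : Fin n → Fin m` (injective,
   range = complement of `R`).  Let `T' ⊆ T` be the set of `a ∈ T` such that no `x a (s i)` is `∞`; for
   `a ∈ T'` write `x a (s i) = ↑(y a i)`, `y a : Fin n → Pt D` injective.  For all `b : I` there is
   `a ∈ T'` with `b < lev (y a i)` for all `i` (by the last clause of `thin`).
   Let `β` be above the levels of all `k j`, `j ∈ R`, that are not `∞`.
   `capture D n _ y _ _ β` gives `W`.  Let `Ŵ i = (↑) '' W i`, clopen (`isClopen_image`), disjoint.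
   Let `a₀ ∈ T` and `f = g a₀ + ∑ i, indicator (Ŵ i) (q (s i) - g a₀)`, continuous.  On `Ŵ i` it is
   `q (s i)`, off `⋃ Ŵ i` it is `g a₀`.
   For `a` in the uncountable set of `capture`: for `j ∈ R`, `x a j = k j` is not in any `Ŵ i`
   (levels `> β`), so `f (x a j) = g a₀ (k j)` as in (3); for `j = s i`: `x a j = ↑(y a i) ∈ Ŵ i`, so
   `f (x a j) = q j`.  Hence `|f x - g a x| < ε a` on `F a`.
-/

set_option autoImplicit false
open Cardinal Set

namespace Pool.CpS

variable {I L : Type} [LinearOrder I] [WellFoundedLT I] [LinearOrder L] [WellFoundedLT L]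

namespace FamilyAux

/-- a function on `I` with values in a countable type has a large fibre -/
lemma fibre {I L V : Type} [Countable V] (hinf : ℵ₀ ≤ #L) (hlt : #L < #I) (v : I → V) :
    ∃ v₀, #L < #{c : I // v c = v₀} := by
  by_contra h
  push Not at h
  have h1 : #I = #(Σ v₀, {c : I // v c = v₀}) := mk_congr (Equiv.sigmaFiberEquiv v).symm
  have h2 : #(Σ v₀, {c : I // v c = v₀}) ≤ #L := by
    rw [mk_sigma]
    refine (sum_le_sum _ (fun _ => #L) h).trans ?_
    rw [sum_const, lift_id, lift_id]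
    refine (mul_le_mul_left (mk_le_aleph0 (α := V)) _).trans ?_
    rw [aleph0_mul_eq hinf]
  rw [h1] at hlt
  exact absurd hlt (not_lt.2 h2)

lemma not_countable_of_lt {A : Type} {c : Cardinal.{0}} (hinf : ℵ₀ ≤ c) {T : Set A}
    (h : c < #T) : ¬ T.Countable := by
  intro hc
  exact absurd (hinf.trans_lt h) (not_lt.2 (le_aleph0_iff_set_countable.2 hc))

lemma not_countable_image {A B : Type} (f : A → B) (hf : Function.Injective f) {T : Set A}
    (hT : ¬ T.Countable) {S : Set B} (h : ∀ a ∈ T, f a ∈ S) : ¬ S.Countable := by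
  intro hS
  apply hT
  have h1 : (f '' T).Countable := hS.mono (by rintro _ ⟨a, ha, rfl⟩; exact h a ha)
  exact countable_of_injective_of_countable_image hf.injOn h1

/-- the property of the choices (1) -/
def Pr {X : Type} [TopologicalSpace X] (F : Finset X) (g : C(X, ℝ)) (ε : ℝ)
    (v : Σ m : ℕ, ℕ × (Fin m → ℚ)) (x : Fin v.1 → X) : Prop :=
  Function.Injective x ∧ (∀ z ∈ F, ∃ j, x j = z) ∧ 1 / ((v.2.1 : ℝ) + 1) < ε ∧
    ∀ j, |g (x j) - v.2.2 j| < 1 / (4 * ((v.2.1 : ℝ) + 1))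

lemma exists_pr {X : Type} [TopologicalSpace X] (F : Finset X) (g : C(X, ℝ)) {ε : ℝ}
    (hε : 0 < ε) : ∃ v x, Pr F g ε v x := by
  obtain ⟨N, hN⟩ := exists_nat_one_div_lt hε
  have hpos : (0 : ℝ) < 1 / (4 * ((N : ℝ) + 1)) := by positivity
  let x : Fin F.card → X := fun j => (F.equivFin.symm j : X)
  choose q hq using fun j => exists_rat_near (g (x j)) hpos
  refine ⟨⟨F.card, N, q⟩, x, ?_, ?_, hN, hq⟩
  · intro j j' h
    exact F.equivFin.symm.injective (Subtype.ext h)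
  · intro z hz
    refine ⟨F.equivFin ⟨z, hz⟩, ?_⟩
    show ((F.equivFin.symm (F.equivFin ⟨z, hz⟩) : F) : X) = z
    rw [Equiv.symm_apply_apply]

/-- changing a continuous function on finitely many disjoint clopen sets -/
lemma exists_glue {X : Type} [TopologicalSpace X] (g : C(X, ℝ)) {n : ℕ} (W : Fin n → Set X)
    (hW : ∀ i, IsClopen (W i)) (hd : ∀ i j, i ≠ j → Disjoint (W i) (W j)) (q : Fin n → ℝ) :
    ∃ f : C(X, ℝ), (∀ i, ∀ x ∈ W i, f x = q i) ∧ ∀ x, (∀ i, x ∉ W i) → f x = g x := by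
  classical
  have hc : Continuous (fun x => g x + ∑ i, (W i).indicator (fun x => q i - g x) x) := by
    refine g.continuous.add (continuous_finsetSum _ fun i _ => ?_)
    refine Continuous.indicator (fun a ha => ?_) (continuous_const.sub g.continuous)
    rw [(hW i).frontier_eq] at ha
    exact absurd ha (notMem_empty _)
  refine ⟨⟨_, hc⟩, fun i x hx => ?_, fun x hx => ?_⟩
  · show g x + ∑ i, (W i).indicator (fun x => q i - g x) x = q i
    rw [Finset.sum_eq_single i]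
    · rw [indicator_of_mem hx]
      ring
    · intro j _ hj
      exact indicator_of_notMem (fun h => (disjoint_left.1 (hd j i hj) h) hx) _
    · intro h
      exact absurd (Finset.mem_univ _) h
  · show g x + ∑ i, (W i).indicator (fun x => q i - g x) x = g x
    rw [Finset.sum_eq_zero fun i _ => indicator_of_notMem (hx i) _, add_zero]

lemma card_S (H : Hyp I L) (D : Par I L) (b : I) :
    #({x : OnePoint (Pt D) | x = OnePoint.infty ∨ ∃ z : Pt D, x = ↑z ∧ lev z ≤ b} :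
      Set (OnePoint (Pt D))) ≤ #L := by
  have hinf : ℵ₀ ≤ #L := H.reg.aleph0_le
  have h0 : ({x : OnePoint (Pt D) | x = OnePoint.infty ∨ ∃ z : Pt D, x = ↑z ∧ lev z ≤ b} :
      Set (OnePoint (Pt D))) ⊆ insert OnePoint.infty
        ((fun z : Pt D => (z : OnePoint (Pt D))) '' {z | lev z ≤ b}) := by
    rintro x (rfl | ⟨z, rfl, hz⟩)
    · exact mem_insert _ _
    · exact mem_insert_of_mem _ ⟨z, hz, rfl⟩
  refine (mk_le_mk_of_subset h0).trans ((mk_insert_le).trans ?_)
  have hIic : #(Iic b) ≤ #L := by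
    have h1 : Iic b = insert b (Iio b) := by
      ext x
      simp [le_iff_eq_or_lt]
    rw [h1]
    refine (mk_insert_le).trans ?_
    refine (add_le_add_left (H.iioI b) 1).trans ?_
    rw [add_one_eq hinf]
  have h2 : #({z : Pt D | lev z ≤ b} : Set (Pt D)) ≤ #(Iic b × L) := by
    refine mk_le_of_injective (f := fun z => (⟨z.1.1, z.2⟩, z.1.2)) ?_
    rintro ⟨⟨z1, z2⟩, hz⟩ ⟨⟨w1, w2⟩, hw⟩ h
    rw [Prod.mk.injEq, Subtype.mk.injEq] at h
    exact Subtype.ext (Prod.ext h.1 h.2)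
  have h3 : #(Iic b × L) ≤ #L := by
    rw [mk_prod, lift_id, lift_id]
    refine (mul_le_mul_left hIic _).trans ?_
    rw [mul_eq_self hinf]
  refine (add_le_add_left (mk_image_le.trans (h2.trans h3)) 1).trans ?_
  rw [add_one_eq hinf]

end FamilyAux

open FamilyAux

theorem family (H : Hyp I L) (D : Par I L) (F : I → Finset (OnePoint (Pt D)))
    (g : I → C(OnePoint (Pt D), ℝ)) (ε : I → ℝ) (hε : ∀ c, 0 < ε c) :
    ∃ f : C(OnePoint (Pt D), ℝ), ¬ {c | ∀ x ∈ F c, |f x - g c x| < ε c}.Countable := by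
  classical
  have hinf : ℵ₀ ≤ #L := H.reg.aleph0_le
  choose v x' hx' using fun c => exists_pr (F c) (g c) (hε c)
  obtain ⟨⟨m, N, q⟩, hv₀⟩ := fibre hinf H.lt v
  have hA' : ∀ c, ∀ w, v c = w → ∃ x, Pr (F c) (g c) (ε c) w x := by
    rintro c _ rfl
    exact ⟨x' c, hx' c⟩
  have hA : ∀ a : {c : I // v c = ⟨m, N, q⟩}, ∃ x, Pr (F a.1) (g a.1) (ε a.1) ⟨m, N, q⟩ x :=
    fun a => hA' a.1 _ a.2
  choose x hx using hA
  have hNpos : (0 : ℝ) < (N : ℝ) + 1 := by positivity
  -- the final estimates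
  have est1 : ∀ (a : {c : I // v c = ⟨m, N, q⟩}) (j : Fin m) (t : ℝ), t = q j →
      |t - g a.1 (x a j)| < ε a.1 := by
    intro a j t ht
    have h1 := (hx a).2.2.2 j
    have h2 := (hx a).2.2.1
    rw [ht, abs_sub_comm]
    refine h1.trans (lt_trans ?_ h2)
    show 1 / (4 * ((N : ℝ) + 1)) < 1 / ((N : ℝ) + 1)
    rw [div_lt_div_iff₀ (by positivity) hNpos]
    linarith
  have est2 : ∀ (a a₀ : {c : I // v c = ⟨m, N, q⟩}) (j : Fin m), x a j = x a₀ j →
      |g a₀.1 (x a j) - g a.1 (x a j)| < ε a.1 := by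
    intro a a₀ j h
    have h1 : |g a.1 (x a j) - q j| < 1 / (4 * ((N : ℝ) + 1)) := (hx a).2.2.2 j
    have h2 : 1 / ((N : ℝ) + 1) < ε a.1 := (hx a).2.2.1
    have h3 : |g a₀.1 (x a₀ j) - q j| < 1 / (4 * ((N : ℝ) + 1)) := (hx a₀).2.2.2 j
    rw [← h] at h3
    have h4 : |g a₀.1 (x a j) - g a.1 (x a j)| ≤
        |g a₀.1 (x a j) - q j| + |g a.1 (x a j) - q j| := by
      have := abs_sub (g a₀.1 (x a j) - (q j : ℝ)) (g a.1 (x a j) - q j)
      rwa [sub_sub_sub_cancel_right] at this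
    have h5 : 1 / (4 * ((N : ℝ) + 1)) + 1 / (4 * ((N : ℝ) + 1)) < 1 / ((N : ℝ) + 1) := by
      have e : 1 / (4 * ((N : ℝ) + 1)) = 1 / ((N : ℝ) + 1) / 4 := by
        field_simp
      rw [e]
      have : 0 < 1 / ((N : ℝ) + 1) := by positivity
      linarith
    linarith
  obtain ⟨R, T, k, hT, hk, hb⟩ := thin hinf hv₀ m x
    (fun b : I => {x : OnePoint (Pt D) | x = OnePoint.infty ∨ ∃ z : Pt D, x = ↑z ∧ lev z ≤ b})
    (card_S H D)
  have hTne : T.Nonempty := by
    by_contra h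
    rw [not_nonempty_iff_eq_empty] at h
    rw [h, mk_eq_zero (∅ : Set _)] at hT
    exact absurd hT not_lt_zero
  obtain ⟨a₀, ha₀⟩ := hTne
  by_cases hR : R = Finset.univ
  · refine ⟨g a₀.1, not_countable_image (fun a : {c : I // v c = ⟨m, N, q⟩} => a.1)
      Subtype.val_injective (not_countable_of_lt hinf hT) ?_⟩
    intro a ha z hz
    obtain ⟨j, rfl⟩ := (hx a).2.1 z hz
    exact est2 a a₀ j (by rw [hk a ha j (by rw [hR]; exact Finset.mem_univ _),
      hk a₀ ha₀ j (by rw [hR]; exact Finset.mem_univ _)])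
  -- the points outside of the root
  have hn : 0 < Rᶜ.card := by
    rw [Finset.card_pos, Finset.nonempty_iff_ne_empty]
    intro h
    exact hR (by rwa [Finset.compl_eq_empty_iff] at h)
  let s : Fin Rᶜ.card → Fin m := fun i => (Rᶜ.equivFin.symm i : Fin m)
  have hs : ∀ i, s i ∉ R := fun i => Finset.mem_compl.1 (Rᶜ.equivFin.symm i).2
  have hsinj : Function.Injective s := fun i j h =>
    Rᶜ.equivFin.symm.injective (Subtype.ext h)
  have hsurj : ∀ j, j ∉ R → ∃ i, s i = j := by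
    intro j hj
    refine ⟨Rᶜ.equivFin ⟨j, Finset.mem_compl.2 hj⟩, ?_⟩
    show ((Rᶜ.equivFin.symm (Rᶜ.equivFin ⟨j, Finset.mem_compl.2 hj⟩)) : Fin m) = j
    rw [Equiv.symm_apply_apply]
  let A' := {a : {c : I // v c = ⟨m, N, q⟩} // a ∈ T ∧ ∀ i, x a (s i) ≠ OnePoint.infty}
  have hy' : ∀ (a : A') (i : Fin Rᶜ.card), ∃ z : Pt D, (z : OnePoint (Pt D)) = x a.1 (s i) :=
    fun a i => OnePoint.ne_infty_iff_exists.1 (a.2.2 i)
  choose y hy using hy'
  have hyinj : ∀ a, Function.Injective (y a) := by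
    intro a i j h
    apply hsinj
    apply (hx a.1).1
    rw [← hy, ← hy, h]
  have hyb : ∀ b : I, ∃ a, ∀ j, b < lev (y a j) := by
    intro b
    obtain ⟨a, haT, ha⟩ := hb b
    have h1 : ∀ i, x a (s i) ≠ OnePoint.infty := fun i h => ha (s i) (hs i) (Or.inl h)
    refine ⟨⟨a, haT, h1⟩, fun j => ?_⟩
    by_contra h2
    exact ha (s j) (hs j) (Or.inr ⟨y ⟨a, haT, h1⟩ j, (hy ⟨a, haT, h1⟩ j).symm, not_lt.1 h2⟩)
  -- a bound for the levels of the root
  obtain ⟨β, hβ⟩ : ∃ β : I, ∀ j, ∀ z : Pt D, k j = ↑z → lev z ≤ β := by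
    have h1 : ∀ j, ∃ p : I, ∀ z : Pt D, k j = ↑z → lev z ≤ p := by
      intro j
      by_cases h2 : k j = OnePoint.infty
      · refine ⟨a₀.1, fun z hz => ?_⟩
        rw [h2] at hz
        exact absurd hz.symm (OnePoint.coe_ne_infty z)
      · obtain ⟨w, hw⟩ := OnePoint.ne_infty_iff_exists.1 h2
        refine ⟨lev w, fun z hz => ?_⟩
        rw [← hw, OnePoint.coe_eq_coe] at hz
        rw [hz]
    choose pp hpp using h1
    obtain ⟨β, hβ⟩ := H.bddI (range pp) ((mk_range_le).trans ((mk_le_aleph0).trans hinf))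
    exact ⟨β, fun j z hz => (hpp j z hz).trans (hβ _ (mem_range_self j)).le⟩
  obtain ⟨W, hW1, hW2, hW3, hW4, hW5⟩ := capture D Rᶜ.card hn y hyinj hyb β
  obtain ⟨f, hf1, hf2⟩ := exists_glue (g a₀.1)
    (fun i => (fun z : Pt D => (z : OnePoint (Pt D))) '' W i)
    (fun i => isClopen_image D (hW2 i) (hW1 i)) (fun i j hij => by
      rw [disjoint_left]
      rintro _ ⟨z, hz, rfl⟩ ⟨w, hw, hwz⟩
      have hwz' : w = z := OnePoint.coe_injective hwz
      rw [hwz'] at hw
      exact disjoint_left.1 (hW3 i j hij) hz hw) (fun i => (q (s i) : ℝ))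
  refine ⟨f, not_countable_image (fun a : A' => a.1.1)
    (Subtype.val_injective.comp Subtype.val_injective) hW5 ?_⟩
  intro a ha z hz
  obtain ⟨j, rfl⟩ := (hx a.1).2.1 z hz
  by_cases hj : j ∈ R
  · have h1 : x a.1 j = k j := hk a.1 a.2.1 j hj
    have h2 : f (x a.1 j) = g a₀.1 (x a.1 j) := by
      refine hf2 _ fun i => ?_
      rintro ⟨u, hu, huz⟩
      have h3 := hβ j u (by rw [← h1]; exact huz.symm)
      exact absurd (hW4 i u hu) (not_lt.2 h3)
    rw [h2]
    exact est2 a.1 a₀ j (by rw [h1, hk a₀ ha₀ j hj])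
  · obtain ⟨i, rfl⟩ := hsurj j hj
    refine est1 a.1 (s i) _ (hf1 i _ ?_)
    exact ⟨y a i, ha i, hy a i⟩

end Pool.CpS
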