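import Pool.Agent.CpS.Base

/-!
# Gamma: a closed set `C` of size `ℵ₁` with uncountably many elements in the given unbounded set `T`

PROOF.  Let `γ` be the least `δ` such that `T ∩ Iio δ` is uncountable.  It exists: `T` is unbounded so
`¬ #T ≤ #L` by `H.bddI`, hence `ℵ₁ ≤ #T` (`H.al`); a subset of `T` of size `ℵ₁` (`≤ #L`) is bounded
(`H.bddI`) and uncountable.
`C = {c < γ | c ∈ T ∨ ((∃ b, b < c) ∧ ∀ b < c, ∃ a ∈ T, b < a ∧ a < c)}`.
* `C ∩ T = T ∩ Iio γ` is uncountable.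
* `ClosedIn C γ`: let `s < γ` and `q₀ ∈ C`, `q₀ ≤ s`.  Let `q` be the least upper bound of
  `{q ∈ C | q ≤ s}` (least `u` with `∀ q ∈ C, q ≤ s → q ≤ u`; `s` is such a `u`, so `q ≤ s`).
  If `q ∉ C`: then every `q' ∈ C`, `q' ≤ s` is `< q`, in particular `q₀ < q`, and for every `b < q`
  there is `q' ∈ C`, `q' ≤ s`, `b < q' < q`; either `q' ∈ T` or there is `a ∈ T` with `b < a < q'`.
  Hence `q ∈ C` by definition. Contradiction.
* `#(T ∩ Iio γ) ≤ ℵ₁`: put `T' = T ∩ Iio γ`, suppose `ℵ₁ < #T'`; take `S ⊆ T'` with `#S = ℵ₁`.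
  If some `c ∈ T'` has `s ≤ c` for all `s ∈ S` then `S ⊆ (T ∩ Iio c) ∪ {c}` is countable (minimality
  of `γ`). Otherwise `T' ⊆ ⋃_{s ∈ S} ((T ∩ Iio s) ∪ {s})` has size `≤ ℵ₁ * ℵ₀ = ℵ₁`. Contradiction.
* `T'` is unbounded in `γ`: if `T' ⊆ Iic b`, `b < γ`, then `T' ⊆ (T ∩ Iio b) ∪ {b}` is countable.
* the map `C \ T → T'`, `c ↦ min {a ∈ T | c < a}` (it is `< γ` by the previous point) is injective:
  if `c < c'` are in `C \ T` then there is `a ∈ T` with `c < a < c'`, so the minimum for `c` is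
  `≤ a < c' <` the minimum for `c'`.  Hence `#C ≤ #T' + #T' ≤ ℵ₁`.
-/

set_option autoImplicit false
open Cardinal Set

namespace Pool.CpS

namespace GammaAux

theorem not_countable_of_mk {I : Type} {S : Set I} (hS : #S = ℵ₁) : ¬ S.Countable := by
  intro h
  rw [← Cardinal.le_aleph0_iff_set_countable, hS] at h
  exact absurd h (not_le.2 Cardinal.aleph0_lt_aleph_one)

theorem exists_subset_mk {I : Type} {S : Set I} (hS : ℵ₁ ≤ #S) : ∃ R, R ⊆ S ∧ #R = ℵ₁ :=
  Cardinal.le_mk_iff_exists_subset.1 hS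

end GammaAux

open GammaAux

theorem exists_gamma {I L : Type} [LinearOrder I] [WellFoundedLT I] [LinearOrder L]
    [WellFoundedLT L] (H : Hyp I L) (T : Set I) (hT : ∀ b, ∃ a ∈ T, b < a) :
    ∃ (γ : I) (C : Set I), C ⊆ Iio γ ∧ ClosedIn C γ ∧ #C ≤ ℵ₁ ∧ ¬ (C ∩ T).Countable := by
  classical
  have hL : ¬ #T ≤ #L := by
    intro h
    obtain ⟨b, hb⟩ := H.bddI T h
    obtain ⟨a, ha, hba⟩ := hT b
    exact lt_irrefl _ (hba.trans (hb a ha))
  have hex : {δ : I | ¬ (T ∩ Iio δ).Countable}.Nonempty := by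
    obtain ⟨S, hST, hS⟩ := exists_subset_mk (H.al.le.trans (not_le.1 hL).le)
    obtain ⟨b, hb⟩ := H.bddI S (hS.le.trans H.al.le)
    have hsub : S ⊆ T ∩ Iio b := fun s hs => ⟨hST hs, hb s hs⟩
    exact ⟨b, fun h => not_countable_of_mk hS (h.mono hsub)⟩
  obtain ⟨γ, hγ, hmin⟩ := WellFounded.has_min (wellFounded_lt (α := I)) _ hex
  have hcount : ∀ c < γ, (T ∩ Iio c).Countable := by
    intro c hc
    by_contra h
    exact hmin c h hc
  have hcount' : ∀ c < γ, (T ∩ Iic c).Countable := by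
    intro c hc
    refine ((hcount c hc).union (Set.countable_singleton c)).mono ?_
    rintro s ⟨hs, hsc⟩
    rcases (show s ≤ c from hsc).lt_or_eq with h | h
    · exact Or.inl ⟨hs, h⟩
    · exact Or.inr h
  have hunb : ∀ b < γ, ∃ a ∈ T, b < a ∧ a < γ := by
    intro b hb
    by_contra h
    push Not at h
    apply hγ
    refine (hcount' b hb).mono ?_
    rintro s ⟨hs, hsγ⟩
    refine ⟨hs, ?_⟩
    by_contra hsb
    exact absurd hsγ (not_lt.2 (h s hs (not_le.1 hsb)))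
  set C : Set I := {c | c < γ ∧ (c ∈ T ∨ ((∃ b, b < c) ∧ ∀ b < c, ∃ a ∈ T, b < a ∧ a < c))}
    with hC
  refine ⟨γ, C, fun c hc => hc.1, ?_, ?_, ?_⟩
  · rintro s hs ⟨q₀, hq₀, hq₀s⟩
    have hne : {u : I | ∀ q ∈ C, q ≤ s → q ≤ u}.Nonempty := ⟨s, fun q _ h => h⟩
    obtain ⟨q, hq, hqmin⟩ := WellFounded.has_min (wellFounded_lt (α := I)) _ hne
    have hqs : q ≤ s := not_lt.1 (hqmin s (fun q _ h => h))
    by_cases hqC : q ∈ C
    · exact ⟨q, hqC, hqs, hq⟩
    · exfalso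
      apply hqC
      have hlt : ∀ q' ∈ C, q' ≤ s → q' < q := by
        intro q' hq' hq's
        refine lt_of_le_of_ne (hq q' hq' hq's) ?_
        rintro rfl
        exact hqC hq'
      refine ⟨lt_of_le_of_lt hqs hs, Or.inr ⟨⟨q₀, hlt q₀ hq₀ hq₀s⟩, ?_⟩⟩
      intro b hb
      have hb' : ¬ ∀ q ∈ C, q ≤ s → q ≤ b := fun h => hqmin b h hb
      push Not at hb'
      obtain ⟨q', hq', hq's, hbq'⟩ := hb'
      have h1 := hlt q' hq' hq's
      rcases hq'.2 with h2 | ⟨-, h2⟩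
      · exact ⟨q', h2, hbq', h1⟩
      · obtain ⟨a, ha, hba, haq⟩ := h2 b hbq'
        exact ⟨a, ha, hba, haq.trans h1⟩
  · -- cardinality
    have hT' : #(T ∩ Iio γ : Set I) ≤ ℵ₁ := by
      by_contra hcon
      have hlt : ℵ₁ < #(T ∩ Iio γ : Set I) := not_le.1 hcon
      obtain ⟨S, hST, hS⟩ := exists_subset_mk hlt.le
      by_cases hb : ∃ c ∈ T ∩ Iio γ, ∀ s ∈ S, s ≤ c
      · obtain ⟨c, hc, hcS⟩ := hb
        have hsub : S ⊆ T ∩ Iic c := fun s hs => ⟨(hST hs).1, hcS s hs⟩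
        exact not_countable_of_mk hS ((hcount' c hc.2).mono hsub)
      · push Not at hb
        apply hcon
        have hsub : T ∩ Iio γ ⊆ ⋃ s ∈ S, T ∩ Iio s := by
          intro c hc
          obtain ⟨s, hs, hcs⟩ := hb c hc
          exact Set.mem_biUnion hs ⟨hc.1, hcs⟩
        refine (Cardinal.mk_le_mk_of_subset hsub).trans ?_
        rw [Set.biUnion_eq_iUnion]
        refine (Cardinal.mk_iUnion_le _).trans ?_
        rw [hS]
        have hsup : (⨆ i : S, #(T ∩ Iio (i : I) : Set I)) ≤ ℵ₀ := by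
          apply ciSup_le'
          intro i
          rw [Cardinal.le_aleph0_iff_set_countable]
          exact hcount i (hST i.2).2
        refine (mul_le_mul_right hsup ℵ₁).trans ?_
        rw [Cardinal.mul_eq_left (Cardinal.aleph0_le_aleph 1) (Cardinal.aleph0_le_aleph 1)
          (Cardinal.aleph0_pos.ne')]
    have hf : ∀ c : (C \ T : Set I), ∃ a ∈ T, (c : I) < a ∧ a < γ ∧
        ∀ a' ∈ T, (c : I) < a' → a ≤ a' := by
      intro c
      obtain ⟨a₀, ha₀, h1, h2⟩ := hunb c c.2.1.1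
      have hne : {a : I | a ∈ T ∧ (c : I) < a}.Nonempty := ⟨a₀, ha₀, h1⟩
      obtain ⟨a, ha, hamin⟩ := WellFounded.has_min (wellFounded_lt (α := I)) _ hne
      exact ⟨a, ha.1, ha.2, lt_of_le_of_lt (not_lt.1 (hamin a₀ ⟨ha₀, h1⟩)) h2,
        fun a' h3 h4 => not_lt.1 (hamin a' ⟨h3, h4⟩)⟩
    choose f hfT hfc hfγ hfmin using hf
    have hinj : Function.Injective (fun c : (C \ T : Set I) =>
        (⟨f c, hfT c, hfγ c⟩ : (T ∩ Iio γ : Set I))) := by
      have hmono : ∀ c c' : (C \ T : Set I), (c : I) < c' → f c < f c' := by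
        intro c c' hcc
        rcases c'.2.1.2 with h | ⟨-, h⟩
        · exact absurd h c'.2.2
        · obtain ⟨a, ha, h1, h2⟩ := h c hcc
          exact lt_of_le_of_lt (hfmin c a ha h1) (h2.trans (hfc c'))
      intro c c' hcc
      have hcc' : f c = f c' := congrArg Subtype.val hcc
      rcases lt_trichotomy (c : I) c' with h | h | h
      · exact absurd hcc' (hmono c c' h).ne
      · exact Subtype.ext h
      · exact absurd hcc' (hmono c' c h).ne'
    have h1 : #(C \ T : Set I) ≤ ℵ₁ := (Cardinal.mk_le_of_injective hinj).trans hT'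
    have hsub : C ∩ T ⊆ T ∩ Iio γ := fun c hc => ⟨hc.2, hc.1.1⟩
    have h2 : #(C ∩ T : Set I) ≤ ℵ₁ := (Cardinal.mk_le_mk_of_subset hsub).trans hT'
    have h3 : C = (C ∩ T) ∪ (C \ T) := (Set.inter_union_sdiff C T).symm
    rw [h3]
    refine (Cardinal.mk_union_le _ _).trans ?_
    calc #(C ∩ T : Set I) + #(C \ T : Set I) ≤ ℵ₁ + ℵ₁ := add_le_add h2 h1
      _ = ℵ₁ := Cardinal.add_eq_self (Cardinal.aleph0_le_aleph 1)
  · intro h
    apply hγ
    refine h.mono ?_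
    rintro c ⟨hc, hcγ⟩
    exact ⟨⟨hcγ, Or.inl hc⟩, hc⟩

end Pool.CpS
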