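import Pool.Agent.CpS.Base

/-!
# Marks: below every `p` the set `Gam` (cofinality ≥ λ) is sigma-discrete

PROOF.  Strong induction on `p`.  Let `e : I → L` be injective on `Iio p` (`H.iioI p`).
Records: `R = {β < p | ∀ β' < p, e β' < e β → β' < β}`.
(a) For every `x < p` there is `β ∈ R` with `x ≤ β`: the `β` with `x ≤ β < p` and `e β` minimal
    (well-foundedness of `L`): if `e β' < e β` then `β' < x ≤ β`.
(b) For `α < p`, `#(R ∩ Iio α) < #L`: take `β ∈ R`, `α ≤ β` by (a); for `β' ∈ R`, `β' < β` we have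
    `e β' < e β` (otherwise `e β < e β'` by injectivity, and `β' ∈ R` gives `β < β'`); so
    `R ∩ Iio α` injects by `e` into `Iio (e β)`, use `H.iioL`.
(c) hence for `α ∈ Gam`, `α < p` : by the definition of `Gam` there is `x < α` with all elements of
    `R ∩ Iio α` being `< x`.
For `α < p`, `α ∉ R` let `β⁺(α) = min {β ∈ R | α < β}` (exists by (a), as `α ∉ R`), and let `m_β` be
the marking for `β` from the induction hypothesis (for all `β < p`).  Define
  `m α = 0` if `α ∈ R` (or `α ≥ p`),  `m α = m_{β⁺(α)} α + 1` otherwise.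
Let `α ∈ Gam`, `α < p`, `x` from (c).
* `α ∈ R`: for `α'` with `x ≤ α' < α` we have `α' ∉ R`, so `m α' ≥ 1 ≠ 0 = m α`; take `b = x`.
* `α ∉ R`: for `x ≤ α' < α`: `α' ∉ R` and `β⁺(α') = β⁺(α) = β` (no element of `R` in `[x, α]`), so
  by the induction hypothesis for `β` (and `α < β`) there is `b' < α` such that
  `m_β α' ≠ m_β α` for `b' < α' < α`, `α' ∈ Gam`; take `b = max x b'`.
-/

set_option autoImplicit false
open Cardinal Set

namespace Pool.CpS

theorem exists_marks {I L : Type} [LinearOrder I] [WellFoundedLT I] [LinearOrder L]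
    [WellFoundedLT L] (H : Hyp I L) (p : I) :
    ∃ m : I → ℕ, ∀ α ∈ Gam I L, α < p →
      ∃ b < α, ∀ α' ∈ Gam I L, b < α' → α' < α → m α' ≠ m α := by
  classical
  refine WellFounded.induction (C := fun p : I => ∃ m : I → ℕ, ∀ α ∈ Gam I L, α < p →
      ∃ b < α, ∀ α' ∈ Gam I L, b < α' → α' < α → m α' ≠ m α) wellFounded_lt p ?_
  intro p IH
  obtain ⟨e⟩ := H.iioI p
  have hinj : ∀ (β β' : I) (h : β < p) (h' : β' < p), e ⟨β, h⟩ = e ⟨β', h'⟩ → β = β' := by
    intro β β' h h' heq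
    exact congrArg Subtype.val (e.injective heq)
  let R : Set I := {β | ∃ hβ : β < p, ∀ (β' : I) (h' : β' < p), e ⟨β', h'⟩ < e ⟨β, hβ⟩ → β' < β}
  have hRp : ∀ β ∈ R, β < p := fun β hβ => hβ.1
  have ha : ∀ x < p, ∃ β ∈ R, x ≤ β := by
    intro x hx
    obtain ⟨l, ⟨β, hβ, hxβ, rfl⟩, hmin⟩ := WellFounded.has_min (wellFounded_lt (α := L))
      {l | ∃ (β : I) (h : β < p), x ≤ β ∧ e ⟨β, h⟩ = l} ⟨e ⟨x, hx⟩, x, hx, le_rfl, rfl⟩
    refine ⟨β, ⟨hβ, ?_⟩, hxβ⟩
    intro β' h' hlt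
    by_contra hcon
    exact hmin _ ⟨β', h', hxβ.trans (not_lt.1 hcon), rfl⟩ hlt
  have hb : ∀ α < p, #(↥(R ∩ Iio α)) < #L := by
    intro α hα
    obtain ⟨β, hβR, hαβ⟩ := ha α hα
    have hβp := hRp β hβR
    refine lt_of_le_of_lt ?_ (H.iioL (e ⟨β, hβp⟩))
    refine Cardinal.mk_le_of_injective (f := fun β' : ↥(R ∩ Iio α) =>
      (⟨e ⟨β'.1, hRp _ β'.2.1⟩, ?_⟩ : ↥(Iio (e ⟨β, hβp⟩)))) ?_
    · have hlt : (β' : I) < β := lt_of_lt_of_le β'.2.2 hαβ
      rw [mem_Iio]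
      by_contra hcon
      rcases (not_lt.1 hcon).lt_or_eq with h | h
      · exact absurd (β'.2.1.2 β hβp h) (not_lt.2 hlt.le)
      · exact hlt.ne' (hinj _ _ _ _ h)
    · intro β₁ β₂ h
      have h1 := congrArg Subtype.val h
      exact Subtype.ext (hinj _ _ _ _ h1)
  have hc : ∀ α ∈ Gam I L, α < p → ∃ x < α, ∀ s ∈ R, s < α → s < x := by
    intro α hα hαp
    obtain ⟨x, hx, hx2⟩ := hα (R ∩ Iio α) inter_subset_right (hb α hαp)
    exact ⟨x, hx, fun s hs hsα => hx2 s ⟨hs, hsα⟩⟩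
  have hmm : ∀ β : I, ∃ m : I → ℕ, β < p → ∀ α ∈ Gam I L, α < β →
      ∃ b < α, ∀ α' ∈ Gam I L, b < α' → α' < α → m α' ≠ m α := by
    intro β
    by_cases hβ : β < p
    · obtain ⟨m, hm⟩ := IH β hβ
      exact ⟨m, fun _ => hm⟩
    · exact ⟨fun _ => 0, fun h => absurd h hβ⟩
  choose mm hmm using hmm
  let bpS : Set I → I := fun T => if h : T.Nonempty then
    WellFounded.min (wellFounded_lt (α := I)) T h else p
  have hbpS : ∀ T : Set I, T.Nonempty → bpS T ∈ T := by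
    intro T hT
    simp only [bpS, dif_pos hT]
    exact WellFounded.min_mem _ _ _
  let bp : I → I := fun α => bpS {β | β ∈ R ∧ α < β}
  have hbp : ∀ α < p, α ∉ R → bp α ∈ R ∧ α < bp α := by
    intro α hα hαR
    obtain ⟨β, hβR, hαβ⟩ := ha α hα
    have hne : α ≠ β := fun h => hαR (h ▸ hβR)
    exact hbpS {β | β ∈ R ∧ α < β} ⟨β, hβR, lt_of_le_of_ne hαβ hne⟩
  refine ⟨fun α => if α ∈ R then 0 else mm (bp α) α + 1, ?_⟩
  intro α hα hαp
  obtain ⟨x, hxα, hx⟩ := hc α hα hαp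
  have hnR : ∀ α', x < α' → α' < α → α' ∉ R := by
    intro α' h1 h2 h3
    exact absurd (hx α' h3 h2) (not_lt.2 h1.le)
  by_cases hαR : α ∈ R
  · refine ⟨x, hxα, ?_⟩
    intro α' _ h1 h2
    simp only [if_pos hαR, if_neg (hnR α' h1 h2)]
    exact Nat.succ_ne_zero _
  · obtain ⟨hβR, hαβ⟩ := hbp α hαp hαR
    obtain ⟨b', hb', hb2⟩ := hmm (bp α) (hRp _ hβR) α hα hαβ
    refine ⟨max x b', max_lt hxα hb', ?_⟩
    intro α' hα' h1 h2
    have h3 : x < α' := lt_of_le_of_lt (le_max_left _ _) h1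
    have h4 : b' < α' := lt_of_le_of_lt (le_max_right _ _) h1
    have h5 : α' ∉ R := hnR α' h3 h2
    have h6 : bp α' = bp α := by
      have hset : {β | β ∈ R ∧ α' < β} = {β | β ∈ R ∧ α < β} := by
        ext β
        constructor
        · rintro ⟨hβ, hlt⟩
          refine ⟨hβ, ?_⟩
          by_contra hcon
          rcases (not_lt.1 hcon).lt_or_eq with h | h
          · exact absurd (hx β hβ h) (not_lt.2 (h3.trans hlt).le)
          · exact hαR (h ▸ hβ)
        · rintro ⟨hβ, hlt⟩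
          exact ⟨hβ, h2.trans hlt⟩
      show bpS _ = bpS _
      rw [hset]
    simp only [if_neg hαR, if_neg h5, h6]
    intro h
    exact hb2 α' hα' h4 h2 (Nat.succ_injective h)

end Pool.CpS
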