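import Pool.Agent.CpS.Base

/-!
# StatG: `Gam` (the points of cofinality λ) is stationary

PROOF.  Given `nx`.  Let `E = {δ | Cl nx δ}`.
(1) `E` is unbounded: for every `b₀` there is `δ ∈ E` with `b₀ < δ`: define `b (n+1)` = a strict
    upper bound of `{b n} ∪ {nx b | b ≤ b n}` (a set of size `≤ #L`, `H.bddI`, `H.iioI`), and let `δ`
    be the least upper bound (least `u` with `∀ n, b n < u`; exists by `H.bddI`).  If `b < δ` then
    `b ≤ b n` for some `n`, so `nx b < b (n+1) < δ`.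
(2) `#L < #E` (otherwise `E` is bounded by `H.bddI`); pick `S ⊆ E` with `#S = #L`, it is bounded, so
    there is `δ` with `#L ≤ #(E ∩ Iio δ)`.  Let `α` be the least such `δ`.
(3) for `b < α`, `E ∩ Iio α` has an element `> b`: otherwise `E ∩ Iio α ⊆ (E ∩ Iio b) ∪ {b}` has size
    `< #L` (`#L` infinite).  Hence `Cl nx α` (`b < e < α`, `e ∈ E` gives `nx b < e < α`).
(4) `α ∈ Gam`: let `S ⊆ Iio α`, `#S < #L` and suppose no `x < α` is a strict bound of `S`.  Then
    `E ∩ Iio α ⊆ ⋃_{s ∈ S} (E ∩ Iic s)` and each `#(E ∩ Iic s) ≤ #(E ∩ Iio s) + 1 < #L`; since `#L`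
    is regular the union has size `< #L` (`card_biUnion_lt_iff_forall_of_isRegular`), contradiction.
-/

set_option autoImplicit false
open Cardinal Set

namespace Pool.CpS

/-- closure points of `nx` are unbounded -/
theorem exists_cl_gt {I L : Type} [LinearOrder I] [WellFoundedLT I] [LinearOrder L]
    [WellFoundedLT L] (H : Hyp I L) (nx : I → I) (b₀ : I) : ∃ δ, b₀ < δ ∧ Cl nx δ := by
  have hinf : ℵ₀ ≤ #L := H.reg.aleph0_le
  have hIic : ∀ c : I, #(Iic c) ≤ #L := by
    intro c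
    have h1 : Iic c = insert c (Iio c) := by
      ext x
      simp [le_iff_eq_or_lt]
    rw [h1]
    refine (mk_insert_le).trans ?_
    refine (add_le_add_left (H.iioI c) 1).trans ?_
    rw [add_one_eq hinf]
  have hS : ∀ c : I, #(insert c (nx '' Iic c) : Set I) ≤ #L := by
    intro c
    refine (mk_insert_le).trans ?_
    refine (add_le_add_left (mk_image_le.trans (hIic c)) 1).trans ?_
    rw [add_one_eq hinf]
  choose up hup using fun c => H.bddI _ (hS c)
  have h1 : ∀ c, c < up c := fun c => hup c c (mem_insert _ _)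
  have h2 : ∀ c x, x ≤ c → nx x < up c := fun c x hx =>
    hup c _ (mem_insert_of_mem _ (mem_image_of_mem _ hx))
  let b : ℕ → I := fun n => up^[n] b₀
  have hb : ∀ n, b (n + 1) = up (b n) := fun n => Function.iterate_succ_apply' up n b₀
  have hne : {u : I | ∀ n, b n < u}.Nonempty := by
    obtain ⟨u, hu⟩ := H.bddI (range b) ((mk_range_le).trans (by rw [mk_nat]; exact hinf))
    exact ⟨u, fun n => hu _ (mem_range_self n)⟩
  let δ := wellFounded_lt.min {u : I | ∀ n, b n < u} hne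
  have hδ : ∀ n, b n < δ := wellFounded_lt.min_mem _ hne
  refine ⟨δ, hδ 0, fun x hx => ?_⟩
  have h3 : x ∉ {u : I | ∀ n, b n < u} := fun h => wellFounded_lt.not_lt_min _ h hx
  simp only [mem_ofPred_eq, not_forall, not_lt] at h3
  obtain ⟨n, hn⟩ := h3
  have h4 := h2 (b n) x hn
  rw [← hb] at h4
  exact h4.trans (hδ (n + 1))

theorem stat_Gam {I L : Type} [LinearOrder I] [WellFoundedLT I] [LinearOrder L]
    [WellFoundedLT L] (H : Hyp I L) : Stat (Gam I L) := by
  intro nx
  have hinf : ℵ₀ ≤ #L := H.reg.aleph0_le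
  set E : Set I := {δ | Cl nx δ} with hE
  have hcard : #L < #E := by
    by_contra h
    obtain ⟨b, hb⟩ := H.bddI E (not_lt.1 h)
    obtain ⟨δ, hδ, hcl⟩ := exists_cl_gt H nx b
    exact absurd (hb δ hcl) (not_lt.2 hδ.le)
  have hne : {δ : I | #L ≤ #(E ∩ Iio δ : Set I)}.Nonempty := by
    obtain ⟨S, hSE, hS⟩ := le_mk_iff_exists_subset.1 hcard.le
    obtain ⟨δ, hδ⟩ := H.bddI S hS.le
    refine ⟨δ, ?_⟩
    rw [mem_ofPred_eq, ← hS]
    exact mk_le_mk_of_subset fun s hs => ⟨hSE hs, hδ s hs⟩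
  let α := wellFounded_lt.min {δ : I | #L ≤ #(E ∩ Iio δ : Set I)} hne
  have hα : #L ≤ #(E ∩ Iio α : Set I) := wellFounded_lt.min_mem _ hne
  have hmin : ∀ b < α, #(E ∩ Iio b : Set I) < #L := by
    intro b hb
    by_contra h
    exact wellFounded_lt.not_lt_min {δ : I | #L ≤ #(E ∩ Iio δ : Set I)} (not_lt.1 h) hb
  have hins : ∀ b < α, #(insert b (E ∩ Iio b) : Set I) < #L := by
    intro b hb
    refine (mk_insert_le).trans_lt ?_
    exact add_lt_of_lt hinf (hmin b hb) (one_lt_aleph0.trans_le hinf)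
  have hex : ∀ b < α, ∃ e ∈ E, b < e ∧ e < α := by
    intro b hb
    by_contra h
    push Not at h
    have h1 : E ∩ Iio α ⊆ insert b (E ∩ Iio b) := by
      rintro x ⟨hx1, hx2⟩
      rcases lt_trichotomy x b with h2 | rfl | h2
      · exact mem_insert_of_mem _ ⟨hx1, h2⟩
      · exact mem_insert _ _
      · exact absurd hx2 (not_lt.2 (h x hx1 h2))
    exact absurd ((hα.trans (mk_le_mk_of_subset h1)).trans_lt (hins b hb)) (lt_irrefl _)
  refine ⟨α, ?_, fun b hb => ?_⟩
  · intro S hS hSL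
    by_contra h
    push Not at h
    have h1 : E ∩ Iio α ⊆ ⋃ s ∈ S, insert s (E ∩ Iio s) := by
      rintro x ⟨hx1, hx2⟩
      obtain ⟨s, hs, hsx⟩ := h x hx2
      rw [mem_iUnion₂]
      refine ⟨s, hs, ?_⟩
      rcases hsx.lt_or_eq with h2 | h2
      · exact mem_insert_of_mem _ ⟨hx1, h2⟩
      · rw [h2]
        exact mem_insert _ _
    have h2 : #(⋃ s ∈ S, (insert s (E ∩ Iio s) : Set I) : Set I) < #L :=
      (card_biUnion_lt_iff_forall_of_isRegular H.reg hSL).2 fun s hs => hins s (hS hs)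
    exact absurd ((hα.trans (mk_le_mk_of_subset h1)).trans_lt h2) (lt_irrefl _)
  · obtain ⟨e, he, hbe, heα⟩ := hex b hb
    exact (he b hbe).trans heα

end Pool.CpS
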