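import Pool.Agent.CpS.Rho
import Pool.Agent.CpS.Marks
import Pool.Agent.CpS.StatG
import Pool.Agent.CpS.Col
import Pool.Agent.CpS.Gamma

/-!
# Guess: the combinatorial principle

PROOF.  Take `P` from `exists_rho`, for every `p` the marks `m p` from `exists_marks`, `col` from
`exists_col`.  For `n : ℕ` let
 `U n p h = {x | ∃ α ∈ Gam I L, x < α ∧ α < p ∧ m p α = n ∧ col α n = h ∧
      ∀ α' ∈ Gam I L, x < α' → α' < α → m p α' ≠ n}`
(the least `α > x` in `Gam` with mark `n`, if it is `< p`, has colour `h`).  `U n p h ⊆ Iio p` and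
`U n p h`, `U n p h'` are disjoint for `h ≠ h'` (the least `α` is unique).
Claim: some pair `(fun c => P c i, U n)` works.  Suppose not: for all `i n` there is `nx i n` such that
the last clause fails.
Let `nx b` = strict upper bound of `{nx i n b | i, n}` (`H.bddI`; `#(L × ℕ) ≤ #L`).
For `g : ℕ → L`, `b : I` there is `a g b ∈ Gam`, `b < a g b`, `col = g`, `Cl nx (a g b)`: apply the
stationarity of `{α ∈ Gam | col α = g}` to `x ↦ max (nx x) (b⁺)` where `b⁺ > b` is any point above `b`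
(`Gam` points are not minimal, so some `x < α` gives `b < b⁺ ≤ .. < α`).
`nx2 b` = strict upper bound of `{a g b | g}` (`#(ℕ → L) ≤ #L`).
`Γ' = {p ∈ Gam | Cl nx2 p}` is unbounded (stationarity of `Gam`, as above).
For `p ∈ Γ'` there is `n` such that (*) `∀ h, ∀ b < p, ∃ α ∈ Gam, Cl nx α ∧ b < α ∧ α < p ∧
m p α = n ∧ col α n = h`: otherwise choose `h n`, `b n < p` failing for `n`; `g = h`, `b < p` above all
`b n` (`p ∈ Gam`, countable set has size `< #L`); `α = a g b < nx2 b < p`; let `n = m p α`;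
`col α n = g n = h n`: contradiction.
Let `T n = {p ∈ Γ' | (*) for n}`; some `T n` is unbounded (otherwise `Γ'` is bounded, `H.bddI`).
`exists_gamma` for `T n` gives `γ`, `C`.  For `c ∈ C` there is `i c` with `c ∈ P γ (i c)`; by
`H.bddL` (`#C ≤ ℵ₁ < #L`) and monotonicity there is `i` with `C ⊆ P γ i`.  Every `p ∈ C ∩ T n` is in
the set of the last clause for `(i, n)` and `nx i n`: `#(P p i) < #L`, `p ∈ Gam` give `b₀ < p` above
`P p i`; for `h` take `α` from (*) with `b₀ < α`; `Cl (nx i n) α` because `nx i n b < nx b < α`.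
`exists_marks` gives `b₁ < α` with no `α' ∈ Gam` of mark `n` in `(b₁, α)`; `r = max b₀ b₁`; for
`r < x < α` : `x ∈ U n p h` by `α`.  So the set is uncountable, contradiction.
-/

set_option autoImplicit false
open Cardinal Set

namespace Pool.CpS

theorem exists_guess {I L : Type} [LinearOrder I] [WellFoundedLT I] [LinearOrder L]
    [WellFoundedLT L] (H : Hyp I L) :
    ∃ (P : I → Set I) (U : I → L → Set I), (∀ c, P c ⊆ Iio c) ∧
      (∀ c p q, p ∈ P c → q ∈ P c → q < p → q ∈ P p) ∧ (∀ p h, U p h ⊆ Iio p) ∧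
      (∀ p h h' x, x ∈ U p h → x ∈ U p h' → h = h') ∧
      ∀ nx : I → I, ∃ (γ : I) (C : Set I), C ⊆ P γ ∧ ClosedIn C γ ∧ #C ≤ ℵ₁ ∧
        ¬ {p ∈ C | ∀ h, ∃ α, Cl nx α ∧ ∃ r < α, (∀ q ∈ P p, q ≤ r) ∧
          ∀ x, r < x → x < α → x ∈ U p h}.Countable := by
  classical
  have hal0 : ℵ₀ < #L := (Cardinal.aleph0_le_aleph 1).trans_lt H.al
  have hposL : 0 < #L := Cardinal.aleph0_pos.trans hal0
  have hLN : #(L × ℕ) ≤ #L := by
    rw [Cardinal.mk_prod, Cardinal.lift_id, Cardinal.lift_id, Cardinal.mk_nat]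
    exact Cardinal.mul_le_of_le hal0.le le_rfl hal0.le
  have hNL : #(ℕ → L) ≤ #L := by
    have h1 : #(ℕ → L) = #L ^ ℵ₀ := by
      rw [← Cardinal.mk_nat, Cardinal.power_def]
    rw [h1]
    exact (Cardinal.power_le_power_left hposL.ne' (Cardinal.aleph0_le_aleph 1)).trans H.pow
  have hcount : ∀ {X : Type} (f : ℕ → X), #(Set.range f) < #L := fun f =>
    lt_of_le_of_lt (Cardinal.mk_range_le.trans (by rw [Cardinal.mk_nat])) hal0
  obtain ⟨P, P_lt, P_mono, P_cov, P_card, P_coh⟩ := exists_rho H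
  choose m hm using fun p => exists_marks H p
  obtain ⟨col, hcol⟩ := exists_col H (stat_Gam H)
  let U : ℕ → I → L → Set I := fun n p h => {x | ∃ α ∈ Gam I L, x < α ∧ α < p ∧ m p α = n ∧
    col α n = h ∧ ∀ α' ∈ Gam I L, x < α' → α' < α → m p α' ≠ n}
  by_contra hcon
  have key : ∀ (i : L) (n : ℕ), ∃ nx : I → I, ∀ (γ : I) (C : Set I), C ⊆ P γ i →
      ClosedIn C γ → #C ≤ ℵ₁ → {p ∈ C | ∀ h, ∃ α, Cl nx α ∧ ∃ r < α, (∀ q ∈ P p i, q ≤ r) ∧
        ∀ x, r < x → x < α → x ∈ U n p h}.Countable := by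
    intro i n
    by_contra hin
    push Not at hin
    apply hcon
    refine ⟨fun c => P c i, U n, fun c => P_lt c i, fun c p q => P_coh c i p q, ?_, ?_, ?_⟩
    · rintro p h x ⟨α, _, hxα, hαp, _⟩
      exact hxα.trans hαp
    · rintro p h h' x ⟨α, hα, hxα, hαp, hmα, hcα, hminα⟩ ⟨β, hβ, hxβ, hβp, hmβ, hcβ, hminβ⟩
      have hαβ : α = β := by
        rcases lt_trichotomy α β with h1 | h1 | h1
        · exact absurd hmα (hminβ α hα hxα h1)
        · exact h1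
        · exact absurd hmβ (hminα β hβ hxβ h1)
      subst hαβ
      rw [← hcα, ← hcβ]
    · intro nx
      obtain ⟨γ, C, h1, h2, h3, h4⟩ := hin nx
      exact ⟨γ, C, h1, h2, h3, h4⟩
  choose nxs hnxs using key
  have hexnx : ∀ b, ∃ y, ∀ i n, nxs i n b < y := by
    intro b
    obtain ⟨y, hy⟩ := H.bddI (Set.range fun z : L × ℕ => nxs z.1 z.2 b)
      (Cardinal.mk_range_le.trans hLN)
    exact ⟨y, fun i n => hy _ ⟨(i, n), rfl⟩⟩
  choose nx hnx using hexnx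
  have hpoint : ∀ a ∈ Gam I L, ∃ x, x < a := by
    intro a ha
    obtain ⟨x, hx, -⟩ := ha ∅ (Set.empty_subset _) (by simpa using hposL)
    exact ⟨x, hx⟩
  have exA : ∀ (g : ℕ → L) (b : I), ∃ a ∈ Gam I L, b < a ∧ col a = g ∧ Cl nx a := by
    intro g b
    obtain ⟨b', hb'⟩ := H.bddI {b} (by
      rw [Cardinal.mk_singleton]; exact (Cardinal.one_lt_aleph0.trans hal0).le)
    have hb : b < b' := hb' b rfl
    obtain ⟨a, ⟨haG, hag⟩, hacl⟩ := hcol g (fun x => max (nx x) b')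
    obtain ⟨x, hx⟩ := hpoint a haG
    exact ⟨a, haG, hb.trans (lt_of_le_of_lt (le_max_right _ _) (hacl x hx)), hag,
      fun y hy => lt_of_le_of_lt (le_max_left _ _) (hacl y hy)⟩
  choose a ha1 ha2 ha3 ha4 using exA
  have hexnx2 : ∀ b, ∃ y, ∀ g, a g b < y := by
    intro b
    obtain ⟨y, hy⟩ := H.bddI (Set.range fun g : ℕ → L => a g b)
      (Cardinal.mk_range_le.trans hNL)
    exact ⟨y, fun g => hy _ ⟨g, rfl⟩⟩
  choose nx2 hnx2 using hexnx2
  have hstar : ∀ p ∈ Gam I L, Cl nx2 p → ∃ n : ℕ, ∀ h : L, ∀ b < p, ∃ α ∈ Gam I L,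
      Cl nx α ∧ b < α ∧ α < p ∧ m p α = n ∧ col α n = h := by
    intro p hp hclp
    by_contra hno
    push Not at hno
    choose hh bb hbb hall using hno
    obtain ⟨b, hb, hbound⟩ := hp (Set.range bb) (by rintro _ ⟨n, rfl⟩; exact hbb n) (hcount bb)
    exact hall (m p (a hh b)) (a hh b) (ha1 _ _) (ha4 _ _)
      ((hbound _ ⟨_, rfl⟩).trans (ha2 _ _)) ((hnx2 b hh).trans (hclp b hb)) rfl (by rw [ha3])
  have hexT : ∃ n : ℕ, ∀ b, ∃ p ∈ {p | p ∈ Gam I L ∧ ∀ h : L, ∀ b < p, ∃ α ∈ Gam I L,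
      Cl nx α ∧ b < α ∧ α < p ∧ m p α = n ∧ col α n = h}, b < p := by
    by_contra hno
    push Not at hno
    choose bb hbb using hno
    obtain ⟨b, hb⟩ := H.bddI (Set.range bb) (hcount bb).le
    obtain ⟨p, hpG, hpcl⟩ := stat_Gam H (fun x => max (nx2 x) b)
    obtain ⟨x, hx⟩ := hpoint p hpG
    have hbp : b < p := lt_of_le_of_lt (le_max_right _ _) (hpcl x hx)
    obtain ⟨n, hn⟩ := hstar p hpG (fun y hy => lt_of_le_of_lt (le_max_left _ _) (hpcl y hy))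
    exact absurd (hbb n p ⟨hpG, hn⟩) (not_le.mpr ((hb _ ⟨n, rfl⟩).trans hbp))
  obtain ⟨n, hT⟩ := hexT
  obtain ⟨γ, C, hCγ, hCcl, hCcard, hCunc⟩ := exists_gamma H _ hT
  have hexi : ∀ c : C, ∃ i, c.1 ∈ P γ i := fun c => P_cov γ c.1 (hCγ c.2)
  choose ic hic using hexi
  obtain ⟨i, hi⟩ := H.bddL (Set.range ic)
    (lt_of_le_of_lt (Cardinal.mk_range_le.trans hCcard) H.al)
  apply hCunc
  refine (hnxs i n γ C (fun c hc => P_mono γ _ _ (hi _ ⟨⟨c, hc⟩, rfl⟩).le (hic ⟨c, hc⟩))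
    hCcl hCcard).mono ?_
  rintro p ⟨hpC, hpG, hpstar⟩
  refine ⟨hpC, fun h => ?_⟩
  obtain ⟨b₀, hb₀, hb₀'⟩ := hpG (P p i) (P_lt p i) (P_card p i)
  obtain ⟨α, hαG, hαcl, hbα, hαp, hmα, hcα⟩ := hpstar h b₀ hb₀
  obtain ⟨b₁, hb₁, hb₁'⟩ := hm p α hαG hαp
  refine ⟨α, fun b hb => (hnx b i n).trans (hαcl b hb), max b₀ b₁, max_lt hbα hb₁,
    fun q hq => (hb₀' q hq).le.trans (le_max_left _ _), fun x hx hxα =>
      ⟨α, hαG, hxα, hαp, hmα, hcα, fun α' hα' hxα' hα'α => ?_⟩⟩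
  rw [← hmα]
  exact hb₁' α' hα' ((le_max_right b₀ b₁).trans_lt (hx.trans hxα')) hα'α

end Pool.CpS
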