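import Pool.Agent.CpS.Exist
import Pool.Agent.CpS.Guess
import Pool.Agent.CpS.Code
import Pool.Agent.CpS.Family

/-!
# Fin: assembly.

PROOF.  `exists_hyp`, `exists_guess`, `exists_code` give `D : Par I L`; `X = OnePoint (Pt D)` is compact,
T2, scattered.  Suppose `𝓑` is a point-countable π-base of `C_p(X)`.  For `c : I` let
`O c = {f | 0 < f ↑(iso D c)}` (open, nonempty), `Bc c ∈ 𝓑`, `Bc c ⊆ O c`, `g c ∈ Bc c`, and
`F c`, `ε c` with `{f | ∀ x ∈ F c, |f x - g c x| < ε c} ⊆ Bc c`.  `family` gives `f` with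
`J = {c | f ∈ Bc c}` uncountable.  `c ↦ Bc c` maps `J` into the countable set `{B ∈ 𝓑 | f ∈ B}`, so some
fibre is uncountable, in particular infinite: `Bc c = B₀` for infinitely many `c`.  Pick `c₀` in the
fibre; `F c₀` is finite, so some `c` in the fibre has `↑(iso D c) ∉ F c₀` (`iso_injective`).  The
function `f' = g c₀` off `↑(iso D c)`, `-1` at `↑(iso D c)` is continuous (`isClopen_iso`), is in
`Bc c₀ = B₀ = Bc c ⊆ O c`: contradiction.
-/

set_option autoImplicit false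
open Cardinal Set

namespace Pool.CpS

/-- basic open sets of the pointwise topology -/
theorem exists_basic {X : Type} [TopologicalSpace X] {U : Set C(X, ℝ)}
    (hU : @IsOpen C(X, ℝ)
      (TopologicalSpace.induced (fun f : C(X, ℝ) => (f : X → ℝ)) inferInstance) U)
    {g : C(X, ℝ)} (hg : g ∈ U) :
    ∃ (F : Finset X) (ε : ℝ), 0 < ε ∧ ∀ f : C(X, ℝ), (∀ x ∈ F, |f x - g x| < ε) → f ∈ U := by
  obtain ⟨W, hW, hWU⟩ := isOpen_induced_iff.1 hU
  have hgW : (g : X → ℝ) ∈ W := by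
    have : g ∈ (fun f : C(X, ℝ) => (f : X → ℝ)) ⁻¹' W := by rw [hWU]; exact hg
    exact this
  rw [isOpen_pi_iff] at hW
  obtain ⟨F, u, hu, hsub⟩ := hW _ hgW
  have h1 : ∀ x : X, ∃ ε > 0, x ∈ F → ∀ y : ℝ, |y - g x| < ε → y ∈ u x := by
    intro x
    by_cases hx : x ∈ F
    · obtain ⟨ho, hm⟩ := hu x hx
      obtain ⟨ε, hε, hb⟩ := Metric.isOpen_iff.1 ho _ hm
      refine ⟨ε, hε, fun _ y hy => hb ?_⟩
      rw [Metric.mem_ball, Real.dist_eq]
      exact hy
    · exact ⟨1, one_pos, fun h => absurd h hx⟩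
  choose ε hε hb using h1
  by_cases hF : F.Nonempty
  · refine ⟨F, F.inf' hF ε, (Finset.lt_inf'_iff hF).2 (fun x _ => hε x), fun f hf => ?_⟩
    have : f ∈ (fun f : C(X, ℝ) => (f : X → ℝ)) ⁻¹' W := by
      apply hsub
      intro x hx
      exact hb x hx _ ((hf x hx).trans_le (Finset.inf'_le _ hx))
    rw [hWU] at this
    exact this
  · refine ⟨F, 1, one_pos, fun f _ => ?_⟩
    have : f ∈ (fun f : C(X, ℝ) => (f : X → ℝ)) ⁻¹' W := by
      apply hsub
      intro x hx
      exact absurd ⟨x, hx⟩ hF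
    rw [hWU] at this
    exact this

theorem isOpen_eval {X : Type} [TopologicalSpace X] (x : X) :
    @IsOpen C(X, ℝ)
      (TopologicalSpace.induced (fun f : C(X, ℝ) => (f : X → ℝ)) inferInstance)
      {f | 0 < f x} := by
  rw [isOpen_induced_iff]
  refine ⟨{h : X → ℝ | 0 < h x}, ?_, rfl⟩
  exact _root_.isOpen_lt continuous_const (continuous_apply x)

theorem no_pibase {I L : Type} [LinearOrder I] [WellFoundedLT I] [LinearOrder L]
    [WellFoundedLT L] (H : Hyp I L) (D : Par I L)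
    (𝓑 : Set (Set C(OnePoint (Pt D), ℝ)))
    (h1 : ∀ B ∈ 𝓑, @IsOpen C(OnePoint (Pt D), ℝ)
      (TopologicalSpace.induced (fun f : C(OnePoint (Pt D), ℝ) => (f : OnePoint (Pt D) → ℝ))
        inferInstance) B ∧ B.Nonempty)
    (h2 : ∀ U : Set C(OnePoint (Pt D), ℝ), @IsOpen C(OnePoint (Pt D), ℝ)
      (TopologicalSpace.induced (fun f : C(OnePoint (Pt D), ℝ) => (f : OnePoint (Pt D) → ℝ))
        inferInstance) U → U.Nonempty → ∃ B ∈ 𝓑, B ⊆ U)
    (h3 : ∀ f : C(OnePoint (Pt D), ℝ), {B ∈ 𝓑 | f ∈ B}.Countable) : False := by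
  have hO : ∀ c : I, ∃ B ∈ 𝓑,
      B ⊆ {f : C(OnePoint (Pt D), ℝ) | 0 < f ((iso D c : Pt D) : OnePoint (Pt D))} := fun c =>
    h2 _ (isOpen_eval _) ⟨ContinuousMap.const _ 1, by
      show (0 : ℝ) < 1
      exact one_pos⟩
  choose Bc hBc hBO using hO
  choose g hg using fun c => (h1 _ (hBc c)).2
  choose F ε hε hF using fun c => exists_basic (h1 _ (hBc c)).1 (hg c)
  obtain ⟨f, hf⟩ := family H D F g ε hε
  apply hf
  -- the set is contained in a countable union of countable fibres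
  have hsub : {c | ∀ x ∈ F c, |f x - g c x| < ε c} ⊆
      ⋃ B ∈ {B ∈ 𝓑 | f ∈ B}, {c | Bc c = B} := by
    intro c hc
    exact mem_biUnion (x := Bc c) ⟨hBc c, hF c f hc⟩ rfl
  refine Set.Countable.mono hsub ((h3 f).biUnion ?_)
  intro B₀ _
  by_contra hinf
  have hinf' : {c | Bc c = B₀}.Infinite := fun h => hinf h.countable
  obtain ⟨c₀, hc₀⟩ := hinf'.nonempty
  have hfin : {c | ((iso D c : Pt D) : OnePoint (Pt D)) ∈ F c₀}.Finite :=
    Set.Finite.preimage ((iso_injective D).injOn) (F c₀).finite_toSet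
  obtain ⟨c, hc, hcF⟩ := (hinf'.sdiff hfin).nonempty
  let x₀ : OnePoint (Pt D) := ((iso D c : Pt D) : OnePoint (Pt D))
  have hcl : IsClopen ({x₀} : Set (OnePoint (Pt D))) := isClopen_iso D c
  let h : C(OnePoint (Pt D), ℝ) :=
    ⟨Set.indicator {x₀} (fun x => -1 - g c₀ x), by
      refine Continuous.indicator ?_ (continuous_const.sub (g c₀).continuous)
      rw [hcl.frontier_eq]
      intro a ha
      exact absurd ha (notMem_empty a)⟩
  have hmem : g c₀ + h ∈ Bc c₀ := by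
    apply hF
    intro x hx
    have hne : x ≠ x₀ := by
      rintro rfl
      exact hcF hx
    have : h x = 0 := Set.indicator_of_notMem (s := {x₀}) (a := x) hne (fun x => -1 - g c₀ x)
    rw [ContinuousMap.add_apply, this, add_zero, sub_self, abs_zero]
    exact hε c₀
  have hcc : Bc c₀ = Bc c := by
    rw [show Bc c₀ = B₀ from hc₀, show Bc c = B₀ from hc]
  rw [hcc] at hmem
  have hpos : (0 : ℝ) < (g c₀ + h) x₀ := hBO c hmem
  have hx : h x₀ = -1 - g c₀ x₀ :=
    Set.indicator_of_mem (s := {x₀}) (a := x₀) rfl (fun x => -1 - g c₀ x)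
  rw [ContinuousMap.add_apply, hx] at hpos
  linarith

end Pool.CpS
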