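import Pool.Agent.CpS.Space

/-!
# Lev: levels, restriction of histories, the sets `V z` are open
-/

set_option autoImplicit false
open Cardinal Set

namespace Pool.CpS

variable {I L : Type} [LinearOrder I]

theorem res_res (t : Hist I L) {p q : I} (h : q ≤ p) : res (res t p) q = res t q := by
  funext x
  unfold res
  by_cases hx : x < q
  · rw [if_pos hx, if_pos hx, if_pos (hx.trans_le h)]
  · rw [if_neg hx, if_neg hx]

theorem res_apply_of_lt (t : Hist I L) {p q : I} (h : q < p) : res t p q = t q := by
  unfold res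
  rw [if_pos h]

theorem res_eq_some (t : Hist I L) {p q : I} {d : Dat I L} :
    res t p q = some d ↔ q < p ∧ t q = some d := by
  unfold res
  by_cases h : q < p
  · rw [if_pos h]
    exact ⟨fun hh => ⟨h, hh⟩, fun hh => hh.2⟩
  · rw [if_neg h]
    constructor
    · intro hh
      cases hh
    · intro hh
      exact absurd hh.1 h

omit [LinearOrder I] in
theorem mem_dom {t : Hist I L} {p : I} : p ∈ dom t ↔ ∃ d, t p = some d := by
  unfold dom
  exact Option.ne_none_iff_exists'

theorem dom_res (t : Hist I L) (p : I) : dom (res t p) = dom t ∩ Iio p := by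
  ext q
  rw [mem_inter_iff, mem_dom, mem_dom]
  constructor
  · rintro ⟨d, hd⟩
    rw [res_eq_some] at hd
    exact ⟨⟨d, hd.2⟩, hd.1⟩
  · rintro ⟨⟨d, hd⟩, hq⟩
    exact ⟨d, (res_eq_some t).2 ⟨hq, hd⟩⟩

/-- restrictions of valid histories to elements of the domain are valid -/
theorem valid_res (D : Par I L) {c p : I} {t : Hist I L} (h : Valid D c t) (hp : p ∈ dom t) :
    Valid D p (res t p) := by
  obtain ⟨⟨h1, h2, h3⟩, h4, h5⟩ := h
  refine ⟨⟨?_, ?_, ?_⟩, ?_, ?_⟩
  · rw [dom_res]
    exact inter_subset_right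
  · rw [dom_res]
    exact (Cardinal.mk_le_mk_of_subset inter_subset_left).trans h2
  · intro q d j e hq hj
    rw [res_eq_some] at hq
    exact h3 q d j e hq.2 hj
  · rw [dom_res]
    rintro q ⟨hq, hqp⟩
    exact D.P_coh c p q (h4 hp) (h4 hq) hqp
  · rw [dom_res]
    rintro s hs ⟨q, ⟨hq, -⟩, hqs⟩
    have hpc : p < c := h1 hp
    obtain ⟨q', hq', hq's, hmax⟩ := h5 s (hs.trans hpc) ⟨q, hq, hqs⟩
    exact ⟨q', ⟨hq', hq's.trans_lt hs⟩, hq's, fun u hu hus => hmax u hu.1 hus⟩

/-- the empty history is valid everywhere -/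
theorem valid_none (D : Par I L) (c : I) : Valid D c (fun _ => none) := by
  have h0 : dom (fun _ => none : Hist I L) = ∅ := by
    ext q
    simp [dom]
  refine ⟨⟨?_, ?_, ?_⟩, ?_, ?_⟩
  · rw [h0]; exact empty_subset _
  · rw [h0]; simp
  · intro q d j e hq
    cases hq
  · rw [h0]; exact empty_subset _
  · rw [h0]
    rintro s - ⟨q, hq, -⟩
    exact absurd hq (notMem_empty q)

/-- elements of the domain of a valid history -/
theorem Valid.lt (D : Par I L) {c p : I} {t : Hist I L} {d : Dat I L} (h : Valid D c t)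
    (hp : t p = some d) : p < c ∧ p ∈ D.P c := by
  have hd : p ∈ dom t := mem_dom.2 ⟨d, hp⟩
  exact ⟨h.1.1 hd, h.2.1 hd⟩

/-- a node determines its history and its index -/
theorem node_inj (D : Par I L) {c : I} {t t' : Hist I L} {j j' : ℕ} (h : Valid D c t)
    (h' : Valid D c t') (he : node D c t j = node D c t' j') : t = t' ∧ j = j' := by
  apply D.code_inj c t t' j j' h.1 h'.1
  exact congrArg Prod.snd he

@[simp] theorem lev_node (D : Par I L) (c : I) (t : Hist I L) (j : ℕ) :
    lev (node D c t j) = c := rfl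

variable [WellFoundedLT I]

/-- the members of `V (node)` -/
theorem mem_V_node (D : Par I L) {c : I} {t : Hist I L} (h : Valid D c t) (j : ℕ) (y : Pt D) :
    y ∈ V D (node D c t j) ↔ y = node D c t j ∨ ∃ (p : I) (d : Dat I L), t p = some d ∧
        (y = node D p (res t p) j ∨ y ∈ K D p (res t p) d j) := by
  rw [mem_V]
  constructor
  · rintro (hy | ⟨t', j', hv, hn, p, d, htp, hy⟩)
    · exact Or.inl hy
    · obtain ⟨rfl, rfl⟩ := node_inj D h hv hn
      exact Or.inr ⟨p, d, htp, hy⟩
  · rintro (hy | ⟨p, d, htp, hy⟩)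
    · exact Or.inl hy
    · exact Or.inr ⟨t, j, h, rfl, p, d, htp, hy⟩

/-- a point is a node of a valid history or isolated -/
theorem node_or_isolated (D : Par I L) (z : Pt D) :
    (∃ (t : Hist I L) (j : ℕ), Valid D (lev z) t ∧ z = node D (lev z) t j) ∨ V D z = {z} := by
  by_cases h : ∃ (t : Hist I L) (j : ℕ), Valid D (lev z) t ∧ z = node D (lev z) t j
  · exact Or.inl h
  · right
    ext y
    rw [mem_V, mem_singleton_iff]
    constructor
    · rintro (hy | ⟨t', j', hv, hn, -⟩)
      · exact hy
      · exact absurd ⟨t', j', hv, hn⟩ h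
    · exact Or.inl

theorem lev_lt_of_mem (D : Par I L) {z y : Pt D} (h : y ∈ V D z) : y = z ∨ lev y < lev z := by
  have key : ∀ (c : I) (z : Pt D), lev z = c → ∀ y ∈ V D z, y = z ∨ lev y < lev z := by
    intro c
    induction c using WellFoundedLT.induction with
    | ind c ih =>
      intro z hz y hy
      rw [mem_V] at hy
      rcases hy with hy | ⟨t, j, hv, hn, p, d, htp, hy⟩
      · exact Or.inl hy
      · right
        have hp := (hv.lt D htp).1
        rcases hy with hy | ⟨hg, e, hd, hy⟩
        · rw [hy]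
          exact hp
        · have he := (hv.1.2.2 p d j e htp hd).1
          have h1 : lev (D := D) e.1 < c := by rw [← hz]; exact he.trans hp
          rcases ih _ h1 e.1 rfl y hy.1 with h2 | h2
          · rw [h2]
            exact he.trans hp
          · exact h2.trans (he.trans hp)
  exact key _ z rfl y h

theorem lev_le_of_mem (D : Par I L) {z y : Pt D} (h : y ∈ V D z) : lev y ≤ lev z := by
  rcases lev_lt_of_mem D h with h | h
  · rw [h]
  · exact h.le

/-- the levels of the points of `K D p t d j` lie in the region of `t` at `p`, above `P p` -/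
theorem lev_of_mem_K (D : Par I L) {p : I} {t : Hist I L} {d : Dat I L} {j : ℕ} {y : Pt D}
    (h : y ∈ K D p t d j) :
    lev y ∈ D.U p (D.code p t 0) ∧ lev y < p ∧ ∀ q ∈ D.P p, q < lev y := by
  obtain ⟨hg, e, hd, hy, hr⟩ := h
  obtain ⟨h1, h2⟩ := hg.1 j e hd
  have h3 : lev y ∈ D.U p (D.code p t 0) := h2 _ hr (lev_le_of_mem D hy)
  exact ⟨h3, D.U_lt _ _ h3, fun q hq => (h1 q hq).trans_lt hr⟩

/-- the sets `K` for different indices are disjoint -/
theorem K_disjoint (D : Par I L) {p : I} {t : Hist I L} {d : Dat I L} {j j' : ℕ} (h : j ≠ j')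
    {y : Pt D} (h1 : y ∈ K D p t d j) (h2 : y ∈ K D p t d j') : False := by
  obtain ⟨hg, e, hd, hy⟩ := h1
  obtain ⟨-, e', hd', hy'⟩ := h2
  exact Set.disjoint_left.1 (hg.2 j j' e e' h hd hd') hy hy'

/-- `V` of a restricted node is contained in `V` of the node -/
theorem V_res_subset (D : Par I L) {c p : I} {t : Hist I L} {d : Dat I L} (h : Valid D c t)
    (hp : t p = some d) (j : ℕ) : V D (node D p (res t p) j) ⊆ V D (node D c t j) := by
  intro y hy
  rw [mem_V_node D (valid_res D h (mem_dom.2 ⟨d, hp⟩))] at hy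
  rw [mem_V_node D h]
  right
  rcases hy with hy | ⟨q, d', hq, hy⟩
  · exact ⟨p, d, hp, Or.inl hy⟩
  · rw [res_eq_some] at hq
    rw [res_res t hq.1.le] at hy
    exact ⟨q, d', hq.2, hy⟩

theorem isOpen_lt (D : Par I L) (r : I) : IsOpen {u : Pt D | r < lev u} := by
  rw [isOpen_iff]
  intro z hz
  exact Or.inr ⟨r, hz, fun u hu => hu.2⟩

theorem isOpen_le (D : Par I L) (r : I) : IsOpen {u : Pt D | lev u ≤ r} := by
  rw [isOpen_iff]
  intro z hz
  exact Or.inl (fun u hu => (lev_le_of_mem D hu).trans hz)

theorem isOpen_V (D : Par I L) (z : Pt D) : IsOpen (V D z) := by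
  have key : ∀ (c : I) (z : Pt D), lev z = c → IsOpen (V D z) := by
    intro c
    induction c using WellFoundedLT.induction with
    | ind c ih =>
      intro z hz
      rw [isOpen_iff]
      intro x hx
      rw [mem_V] at hx
      rcases hx with hx | ⟨t, j, hv, hn, p, d, htp, hx⟩
      · left
        rw [hx]
      · have hp := (hv.lt D htp).1
        have hV : V D z = V D (node D (lev z) t j) := by rw [← hn]
        rcases hx with hx | ⟨hg, e, hd, hxe, hr⟩
        · left
          rw [hx, hV]
          exact V_res_subset D hv htp j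
        · have he := (hv.1.2.2 p d j e htp hd).1
          have h1 : lev (D := D) e.1 < c := by rw [← hz]; exact he.trans hp
          have ho := ih _ h1 e.1 rfl
          have hsub : B D e ⊆ V D z := by
            intro u hu
            rw [hV, mem_V_node D hv]
            exact Or.inr ⟨p, d, htp, Or.inr ⟨hg, e, hd, hu⟩⟩
          have hBo : IsOpen (B D e) := ho.inter (isOpen_lt D e.2)
          rw [isOpen_iff] at hBo
          rcases hBo x ⟨hxe, hr⟩ with h2 | ⟨s, hs, h2⟩
          · exact Or.inl (h2.trans hsub)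
          · exact Or.inr ⟨s, hs, h2.trans hsub⟩
  exact key _ z rfl

theorem isOpen_B (D : Par I L) (e : (I × L) × I) : IsOpen (B D e) :=
  (isOpen_V D e.1).inter (isOpen_lt D e.2)

theorem isOpen_K (D : Par I L) (p : I) (t : Hist I L) (d : Dat I L) (j : ℕ) :
    IsOpen (K D p t d j) := by
  by_cases h : Good D p t d ∧ ∃ e, d j = some e
  · obtain ⟨hg, e, he⟩ := h
    have : K D p t d j = B D e := by
      ext y
      constructor
      · rintro ⟨-, e', he', hy⟩
        rw [he] at he'
        cases he'
        exact hy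
      · intro hy
        exact ⟨hg, e, he, hy⟩
    rw [this]
    exact isOpen_B D e
  · have : K D p t d j = ∅ := by
      ext y
      constructor
      · rintro ⟨hg, e, he, -⟩
        exact absurd ⟨hg, e, he⟩ h
      · intro hy
        exact absurd hy (notMem_empty y)
    rw [this]
    exact isOpen_empty

end Pool.CpS
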