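import Pool.Agent.CpS.Base

/-!
# Rho: the coherent system `P γ i` (Todorcevic's rho function, in weak form)

PROOF.  For every `γ : I` fix `e γ : I → L` injective on `Iio γ` (exists since `#(Iio γ) ≤ #L`:
an injection `Iio γ → L`, extended arbitrarily).  Define `P` by well-founded recursion on `γ`
(`WellFounded.fix`, then unfold with `WellFounded.fix_eq`):

  `β ∈ P γ i  ↔  β < γ ∧ ∃ j ≤ i, e γ β < j ∧
       ∀ α β', α < β' → α < γ → β' < γ → e γ α < j → e γ β' < j → α ∈ P β' i`.

By strong induction on `γ` prove monotonicity and covering at once: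
* mono: `i ≤ i'` and `β ∈ P γ i` by `j`: the same `j` works for `i'` (induction hypothesis for `β'`).
* cover: `β < γ`.  Choose `j > e γ β` (`H.bddL` for a singleton; `#L` is infinite).
  `A = {α < γ | e γ α < j}` injects into `Iio j`, so `#A < #L`.  For all pairs `α < β'` in `A` pick
  `i(α, β')` with `α ∈ P β' i(α, β')` (induction hypothesis, `β' < γ`).  There are `< #L` pairs
  (`#A * #A < #L`), so `H.bddL` gives `i₁` above all of them; `i = max j i₁` works by mono at `β'`.
* chain: `q < p` both in `P γ i`, by `j_p` and `j_q`.  Use the larger `j` of the two (both conditions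
  `e γ p < j`, `e γ q < j` hold) to get `q ∈ P p i` (take `α = q`, `β' = p`).
* size: `P γ i ⊆ {β < γ | e γ β < i}` which injects into `Iio i`, and `H.iioL`.
-/

set_option autoImplicit false
open Cardinal Set

namespace Pool.CpS

/-- the body of the recursion -/
private def rhoF {I L : Type} [LinearOrder I] [LinearOrder L] (e : I → I → L) (γ : I)
    (rec : ∀ β' : I, β' < γ → L → Set I) (i : L) : Set I :=
  {β | β < γ ∧ ∃ j ≤ i, e γ β < j ∧ ∀ (α β' : I) (_ : α < β') (_ : α < γ) (hb : β' < γ),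
    e γ α < j → e γ β' < j → α ∈ rec β' hb i}

private noncomputable def rhoP {I L : Type} [LinearOrder I] [WellFoundedLT I] [LinearOrder L]
    (e : I → I → L) : I → L → Set I :=
  (wellFounded_lt (α := I)).fix (rhoF e)

private lemma rhoP_eq {I L : Type} [LinearOrder I] [WellFoundedLT I] [LinearOrder L]
    (e : I → I → L) (γ : I) (i : L) : rhoP e γ i = {β | β < γ ∧ ∃ j ≤ i, e γ β < j ∧
      ∀ α β' : I, α < β' → α < γ → β' < γ → e γ α < j → e γ β' < j → α ∈ rhoP e β' i} := by
  have h : rhoP e γ = rhoF e γ (fun β' _ => rhoP e β') := WellFounded.fix_eq _ _ _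
  rw [h]
  rfl

private lemma rho_e {I L : Type} [LinearOrder I] [WellFoundedLT I] [LinearOrder L]
    [WellFoundedLT L] (H : Hyp I L) :
    ∃ e : I → I → L, ∀ γ x y, x < γ → y < γ → e γ x = e γ y → x = y := by
  classical
  have hne : #L ≠ 0 := by
    have h := H.al
    intro h0
    rw [h0] at h
    simp at h
  obtain ⟨l0⟩ : Nonempty L := Cardinal.mk_ne_zero_iff.1 hne
  have h1 : ∀ γ : I, Nonempty (Iio γ ↪ L) := fun γ => Cardinal.le_def _ _ |>.1 (H.iioI γ)
  let f : ∀ γ : I, (Iio γ ↪ L) := fun γ => Classical.choice (h1 γ)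
  refine ⟨fun γ x => if h : x < γ then f γ ⟨x, h⟩ else l0, ?_⟩
  intro γ x y hx hy hxy
  simp only [dif_pos hx, dif_pos hy] at hxy
  exact congrArg Subtype.val ((f γ).injective hxy)

theorem exists_rho {I L : Type} [LinearOrder I] [WellFoundedLT I] [LinearOrder L]
    [WellFoundedLT L] (H : Hyp I L) :
    ∃ P : I → L → Set I, (∀ γ i, P γ i ⊆ Iio γ) ∧ (∀ γ i i', i ≤ i' → P γ i ⊆ P γ i') ∧
      (∀ γ β, β < γ → ∃ i, β ∈ P γ i) ∧ (∀ γ i, #(P γ i) < #L) ∧
      (∀ γ i p q, p ∈ P γ i → q ∈ P γ i → q < p → q ∈ P p i) := by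
  classical
  obtain ⟨e, he⟩ := rho_e H
  have hinf : ℵ₀ ≤ #L := H.reg.aleph0_le
  -- sizes
  have hcard : ∀ (γ : I) (j : L) (A : Set I), A ⊆ {β | β < γ ∧ e γ β < j} → #A < #L := by
    intro γ j A hA
    refine lt_of_le_of_lt ?_ (H.iioL j)
    refine Cardinal.mk_le_of_injective (f := fun a : A => (⟨e γ a.1, (hA a.2).2⟩ : Iio j)) ?_
    intro a b hab
    have h1 : e γ a.1 = e γ b.1 := congrArg Subtype.val hab
    exact Subtype.ext (he γ a.1 b.1 (hA a.2).1 (hA b.2).1 h1)
  have key : ∀ γ : I, (∀ i i', i ≤ i' → rhoP e γ i ⊆ rhoP e γ i') ∧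
      (∀ β, β < γ → ∃ i, β ∈ rhoP e γ i) := by
    intro γ
    induction γ using WellFoundedLT.induction with
    | ind γ ih =>
      constructor
      · intro i i' hii β hβ
        rw [rhoP_eq] at hβ ⊢
        obtain ⟨h1, j, hj, h2, h3⟩ := hβ
        exact ⟨h1, j, hj.trans hii, h2, fun α β' ha hb hc hd hf =>
          (ih β' hc).1 i i' hii (h3 α β' ha hb hc hd hf)⟩
      · intro β hβ
        obtain ⟨j, hj⟩ := H.bddL {e γ β} (by
          rw [Cardinal.mk_singleton]
          exact lt_of_lt_of_le Cardinal.one_lt_aleph0 hinf)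
        have hj' : e γ β < j := hj _ rfl
        set A : Set I := {α | α < γ ∧ e γ α < j} with hAdef
        have hA : #A < #L := hcard γ j A subset_rfl
        let f : A × A → L := fun q => if h : q.1.1 < q.2.1 then
          Classical.choose ((ih q.2.1 q.2.2.1).2 q.1.1 h) else j
        have hf : ∀ q : A × A, q.1.1 < q.2.1 → q.1.1 ∈ rhoP e q.2.1 (f q) := by
          intro q hq
          have h1 : f q = Classical.choose ((ih q.2.1 q.2.2.1).2 q.1.1 hq) := dif_pos hq
          rw [h1]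
          exact Classical.choose_spec ((ih q.2.1 q.2.2.1).2 q.1.1 hq)
        obtain ⟨b, hb⟩ := H.bddL (Set.range f) (by
          refine lt_of_le_of_lt Cardinal.mk_range_le ?_
          rw [Cardinal.mk_prod, Cardinal.lift_id]
          exact Cardinal.mul_lt_of_lt hinf hA hA)
        refine ⟨max j b, ?_⟩
        rw [rhoP_eq]
        refine ⟨hβ, j, le_max_left _ _, hj', fun α β' h1 h2 h3 h4 h5 => ?_⟩
        have h6 := hf (⟨α, h2, h4⟩, ⟨β', h3, h5⟩) h1
        refine (ih β' h3).1 _ _ ?_ h6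
        exact ((hb _ ⟨_, rfl⟩).le).trans (le_max_right _ _)
  refine ⟨rhoP e, fun γ i β hβ => ?_, fun γ => (key γ).1, fun γ => (key γ).2, fun γ i => ?_,
    fun γ i p q hp hq hqp => ?_⟩
  · rw [rhoP_eq] at hβ
    exact hβ.1
  · refine hcard γ i _ fun β hβ => ?_
    rw [rhoP_eq] at hβ
    obtain ⟨h1, j, hj, h2, _⟩ := hβ
    exact ⟨h1, lt_of_lt_of_le h2 hj⟩
  · rw [rhoP_eq] at hp hq
    obtain ⟨p1, jp, hjp, p2, p3⟩ := hp
    obtain ⟨q1, jq, hjq, q2, q3⟩ := hq
    rcases le_total jp jq with h | h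
    · exact q3 q p hqp q1 p1 q2 (lt_of_lt_of_le p2 h)
    · exact p3 q p hqp q1 p1 (lt_of_lt_of_le q2 h) p2

end Pool.CpS
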