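import Pool.Agent.CpS.Base

/-!
# The space: the sets `V z`, by recursion on levels, and the topology.
-/

set_option autoImplicit false
open Cardinal Set

namespace Pool.CpS

variable {I L : Type} [LinearOrder I]

/-- valid histories at `c` -/
def Valid (D : Par I L) (c : I) (t : Hist I L) : Prop :=
  t ∈ HH c ∧ dom t ⊆ D.P c ∧ ClosedIn (dom t) c

/-- one step of the recursion -/
def VF (D : Par I L) (c : I) (rec : (c' : I) → c' < c → L → Set (I × L)) (i : L) :
    Set (I × L) :=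
  {y | y = (c, i) ∨ ∃ (t : Hist I L) (j : ℕ), Valid D c t ∧ D.code c t j = i ∧
    ∃ (p : I) (d : Dat I L), t p = some d ∧
      (y = (p, D.code p (res t p) j) ∨
        (((∀ k e, d k = some e → (∀ q ∈ D.P p, q ≤ e.2) ∧
            ∀ s, e.2 < s → s ≤ e.1.1 → s ∈ D.U p (D.code p (res t p) 0)) ∧
          (∀ k k' e e', k ≠ k' → d k = some e → d k' = some e' →
            ∀ (he : e.1.1 < c) (he' : e'.1.1 < c) (u : I × L),
              u ∈ rec e.1.1 he e.1.2 → e.2 < u.1 → u ∈ rec e'.1.1 he' e'.1.2 →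
                e'.2 < u.1 → False)) ∧
        ∃ e, d j = some e ∧ ∃ he : e.1.1 < c, y ∈ rec e.1.1 he e.1.2 ∧ e.2 < y.1))}

variable [WellFoundedLT I]

/-- the sets `V z` -/
noncomputable def VV (D : Par I L) : (c : I) → L → Set (I × L) :=
  WellFounded.fix (wellFounded_lt (α := I)) (fun c rec => VF D c rec)

/-- the points of the locally compact space `Z` : a pair (level, index) -/
def Pt (_D : Par I L) : Type := I × L

/-- the level of a point -/
def lev {D : Par I L} (z : Pt D) : I := z.1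

/-- the sets `V z` -/
noncomputable def V (D : Par I L) (z : Pt D) : Set (Pt D) := VV D z.1 z.2

/-- `B(e) = V(x) ∩ {u | r < level u}` for `e = (x, r)` -/
def B (D : Par I L) (e : (I × L) × I) : Set (Pt D) := {u | u ∈ V D e.1 ∧ e.2 < lev u}

/-- the data `d` is good at `p` for the history `t` (below `p`) -/
def Good (D : Par I L) (p : I) (t : Hist I L) (d : Dat I L) : Prop :=
  (∀ k e, d k = some e → (∀ q ∈ D.P p, q ≤ e.2) ∧
      ∀ s, e.2 < s → s ≤ e.1.1 → s ∈ D.U p (D.code p t 0)) ∧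
    (∀ k k' e e', k ≠ k' → d k = some e → d k' = some e' → Disjoint (B D e) (B D e'))

/-- the compact open set attached to `p`, the history `t` below `p` and the data `d` -/
def K (D : Par I L) (p : I) (t : Hist I L) (d : Dat I L) (j : ℕ) : Set (Pt D) :=
  {y | Good D p t d ∧ ∃ e, d j = some e ∧ y ∈ B D e}

/-- the point coded by a history -/
def node (D : Par I L) (c : I) (t : Hist I L) (j : ℕ) : Pt D := (c, D.code c t j)

theorem VV_eq (D : Par I L) (c : I) (i : L) : VV D c i = VF D c (fun c' _ => VV D c') i := by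
  unfold VV
  rw [WellFounded.fix_eq]

theorem mem_V (D : Par I L) (z y : Pt D) : y ∈ V D z ↔ y = z ∨
    ∃ (t : Hist I L) (j : ℕ), Valid D (lev z) t ∧ z = node D (lev z) t j ∧
      ∃ (p : I) (d : Dat I L), t p = some d ∧
        (y = node D p (res t p) j ∨ y ∈ K D p (res t p) d j) := by
  obtain ⟨c, i⟩ := z
  show y ∈ VV D c i ↔ _
  rw [VV_eq]
  constructor
  · rintro (h | ⟨t, j, hv, hc, p, d, htp, h⟩)
    · exact Or.inl h
    · refine Or.inr ⟨t, j, hv, ?_, p, d, htp, ?_⟩
      · exact Prod.ext rfl hc.symm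
      · rcases h with h | ⟨⟨h1, h2⟩, e, hd, he, hy, hr⟩
        · exact Or.inl h
        · refine Or.inr ⟨⟨h1, ?_⟩, e, hd, hy, hr⟩
          intro k k' e e' hk hdk hdk'
          rw [Set.disjoint_left]
          rintro u ⟨hu1, hu2⟩ ⟨hu3, hu4⟩
          have hp : p < c := hv.1.1 (show t p ≠ none by rw [htp]; simp)
          exact h2 k k' e e' hk hdk hdk' ((hv.1.2.2 p d k e htp hdk).1.trans hp)
            ((hv.1.2.2 p d k' e' htp hdk').1.trans hp) u hu1 hu2 hu3 hu4
  · rintro (h | ⟨t, j, hv, hc, p, d, htp, h⟩)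
    · exact Or.inl h
    · have hp : p < c := hv.1.1 (show t p ≠ none by rw [htp]; simp)
      refine Or.inr ⟨t, j, hv, ?_, p, d, htp, ?_⟩
      · exact (congrArg Prod.snd hc).symm
      · rcases h with h | ⟨⟨h1, h2⟩, e, hd, hy, hr⟩
        · exact Or.inl h
        · refine Or.inr ⟨⟨h1, ?_⟩, e, hd, (hv.1.2.2 p d j e htp hd).1.trans hp, hy, hr⟩
          intro k k' e e' hk hdk hdk' _ _ u hu1 hu2 hu3 hu4
          exact Set.disjoint_left.1 (h2 k k' e e' hk hdk hdk') ⟨hu1, hu2⟩ ⟨hu3, hu4⟩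

/-- the topology: `U` is open if with each point `z` it contains a basic neighbourhood of `z` -/
instance topo (D : Par I L) : TopologicalSpace (Pt D) where
  IsOpen U := ∀ z ∈ U, V D z ⊆ U ∨ ∃ s < lev z, {u | u ∈ V D z ∧ s < lev u} ⊆ U
  isOpen_univ := fun z _ => Or.inl (subset_univ _)
  isOpen_inter := by
    rintro U U' hU hU' z ⟨hz, hz'⟩
    rcases hU z hz with h | ⟨s, hs, h⟩
    · rcases hU' z hz' with h' | ⟨s', hs', h'⟩
      · exact Or.inl (subset_inter h h')
      · exact Or.inr ⟨s', hs', subset_inter (fun u hu => h hu.1) h'⟩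
    · rcases hU' z hz' with h' | ⟨s', hs', h'⟩
      · exact Or.inr ⟨s, hs, subset_inter h (fun u hu => h' hu.1)⟩
      · refine Or.inr ⟨max s s', max_lt hs hs', ?_⟩
        rintro u ⟨hu1, hu2⟩
        exact ⟨h ⟨hu1, (le_max_left _ _).trans_lt hu2⟩, h' ⟨hu1, (le_max_right _ _).trans_lt hu2⟩⟩
  isOpen_sUnion := by
    rintro S hS z ⟨U, hU, hz⟩
    rcases hS U hU z hz with h | ⟨s, hs, h⟩
    · exact Or.inl (h.trans (subset_sUnion_of_mem hU))
    · exact Or.inr ⟨s, hs, h.trans (subset_sUnion_of_mem hU)⟩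

theorem isOpen_iff (D : Par I L) (U : Set (Pt D)) : IsOpen U ↔
    ∀ z ∈ U, V D z ⊆ U ∨ ∃ s < lev z, {u | u ∈ V D z ∧ s < lev u} ⊆ U := Iff.rfl

theorem self_mem_V (D : Par I L) (z : Pt D) : z ∈ V D z := (mem_V D z z).2 (Or.inl rfl)

end Pool.CpS
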