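import Pool.Agent.CpS.Lev

/-!
# T2: the space is Hausdorff

PROOF.  Let `x ≠ y`.
(A) `lev x < lev y` (or symmetric): `{u | lev u ≤ lev x}` and `{u | lev x < lev u}` are disjoint and
    open (`isOpen_le`, `isOpen_lt`).
(B) `lev x = lev y = c`.  If `V D x = {x}` then `{x}` is open (`isOpen_V`), and `x ∉ V D y`
    (`lev_lt_of_mem`): use `{x}` and `V D y`.  Symmetrically if `V D y = {y}`.
    Otherwise (`node_or_isolated`) `x = node D c t j`, `y = node D c t' j'`, both valid.
(B1) `t = t'`, so `j ≠ j'`: `V D x` and `V D y` are disjoint: by `mem_V_node` a common point `u` is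
    one of `node D c t j`, `node D p (res t p) j`, a point of `K D p (res t p) d j`, and the same for
    `j'` with `p'`, `d'`.
    - two nodes: the levels give `p = p'`, `node_inj` (`valid_res`) gives `j = j'`.
    - node of level `c` and a point of level `< c`: impossible (`lev_of_mem_K`, `Valid.lt`).
    - `u = node D p .. ` (level `p ∈ P c`) and `u ∈ K D p' ..`: `p < p'` by `lev_of_mem_K`, so
      `p ∈ P p'` (`D.P_coh c p' p`), so `p < lev u = p` by `lev_of_mem_K`. Contradiction.
    - `u ∈ K D p (res t p) d j`, `u ∈ K D p' (res t p') d' j'`: if `p = p'` (so `d = d'`), use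
      `K_disjoint`; if `p < p'` then `p ∈ P p'`, so `p < lev u`, but `lev u < p`. Contradiction.
(B2) `t ≠ t'`: pick `s` with `t s ≠ t' s`.  Then `{u ∈ V D x | s < lev u}`, `{u ∈ V D y | s < lev u}`
    are open and disjoint: as in (B1), but for `p > s` we have `res t p ≠ res t' p` (they differ at
    `s`).  (`x` itself is not in `V D y`: `lev_lt_of_mem`.)
    - two nodes `node D p (res t p) j = node D p' (res t' p') j'`: `p = p'`, `node_inj` gives
      `res t p = res t' p`, contradiction.
    - node and `K`: as in (B1).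
    - `u ∈ K D p (res t p) d j`, `u ∈ K D p' (res t' p') d' j'`: if `p = p'`: `lev u` is in
      `U p (code p (res t p) 0)` and in `U p (code p (res t' p) 0)`, so the codes agree by
      `D.U_disj`, and `D.code_inj` (`valid_res`) gives `res t p = res t' p`. `p ≠ p'` as in (B1).
      Note `s < lev u < p`.
-/

set_option autoImplicit false
open Cardinal Set

namespace Pool.CpS

variable {I L : Type} [LinearOrder I] [WellFoundedLT I]

/-- a common point of `V x` and `V y`, `x`, `y` nodes of the same level -/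
theorem V_node_common (D : Par I L) {c : I} {t t' : Hist I L} (h : Valid D c t)
    (h' : Valid D c t') {j j' : ℕ} {u : Pt D} (hu : u ∈ V D (node D c t j))
    (hu' : u ∈ V D (node D c t' j')) :
    (u = node D c t j ∧ u = node D c t' j') ∨ ∃ (p : I) (d d' : Dat I L), t p = some d ∧
      t' p = some d' ∧ ((u = node D p (res t p) j ∧ u = node D p (res t' p) j') ∨
        (u ∈ K D p (res t p) d j ∧ u ∈ K D p (res t' p) d' j')) := by
  rw [mem_V_node D h] at hu
  rw [mem_V_node D h'] at hu'
  rcases hu with hu | ⟨p, d, htp, hu | hu⟩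
  · have hc : lev u = c := by rw [hu, lev_node]
    rcases hu' with hu' | ⟨p', d', htp', hu' | hu'⟩
    · exact Or.inl ⟨hu, hu'⟩
    · exfalso
      have h1 : lev u = p' := by rw [hu', lev_node]
      have h2 := (h'.lt D htp').1
      rw [← h1, hc] at h2
      exact lt_irrefl _ h2
    · exfalso
      have h1 := (lev_of_mem_K D hu').2.1
      have h2 := (h'.lt D htp').1
      rw [hc] at h1
      exact lt_irrefl _ (h1.trans h2)
  · have hc : lev u = p := by rw [hu, lev_node]
    obtain ⟨hpc, hpP⟩ := h.lt D htp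
    rcases hu' with hu' | ⟨p', d', htp', hu' | hu'⟩
    · exfalso
      have h1 : lev u = c := by rw [hu', lev_node]
      rw [← h1, hc] at hpc
      exact lt_irrefl _ hpc
    · have h1 : lev u = p' := by rw [hu', lev_node]
      have h2 : p = p' := hc.symm.trans h1
      subst h2
      exact Or.inr ⟨p, d, d', htp, htp', Or.inl ⟨hu, hu'⟩⟩
    · exfalso
      obtain ⟨-, h1, h2⟩ := lev_of_mem_K D hu'
      rw [hc] at h1
      have h3 := h2 p (D.P_coh c p' p (h'.lt D htp').2 hpP h1)
      rw [hc] at h3
      exact lt_irrefl _ h3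
  · obtain ⟨hpc, hpP⟩ := h.lt D htp
    obtain ⟨-, h1, h2⟩ := lev_of_mem_K D hu
    rcases hu' with hu' | ⟨p', d', htp', hu' | hu'⟩
    · exfalso
      have h3 : lev u = c := by rw [hu', lev_node]
      rw [h3] at h1
      exact lt_irrefl _ (h1.trans hpc)
    · exfalso
      have h3 : lev u = p' := by rw [hu', lev_node]
      rw [h3] at h1
      have h4 := h2 p' (D.P_coh c p p' hpP (h'.lt D htp').2 h1)
      rw [h3] at h4
      exact lt_irrefl _ h4
    · obtain ⟨-, h3, h4⟩ := lev_of_mem_K D hu'
      rcases lt_trichotomy p p' with hlt | heq | hlt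
      · exfalso
        have h5 := h4 p (D.P_coh c p' p (h'.lt D htp').2 hpP hlt)
        exact lt_irrefl _ (h5.trans h1)
      · subst heq
        exact Or.inr ⟨p, d, d', htp, htp', Or.inr ⟨hu, hu'⟩⟩
      · exfalso
        have h5 := h2 p' (D.P_coh c p p' hpP (h'.lt D htp').2 hlt)
        exact lt_irrefl _ (h5.trans h3)

theorem mem_dom_of_eq {t : Hist I L} {p : I} {d : Dat I L} (h : t p = some d) : p ∈ dom t := by
  show t p ≠ none
  rw [h]
  simp

/-- case (B1) -/
theorem V_node_disjoint (D : Par I L) {c : I} {t : Hist I L} (h : Valid D c t) {j j' : ℕ}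
    (hj : j ≠ j') : Disjoint (V D (node D c t j)) (V D (node D c t j')) := by
  rw [Set.disjoint_left]
  intro u hu hu'
  rcases V_node_common D h h hu hu' with ⟨h1, h2⟩ | ⟨p, d, d', hd, hd', ⟨h1, h2⟩ | ⟨h1, h2⟩⟩
  · exact hj (node_inj D h h (h1.symm.trans h2)).2
  · have hv := valid_res D h (mem_dom_of_eq hd)
    exact hj (node_inj D hv hv (h1.symm.trans h2)).2
  · have h3 : d = d' := by
      rw [hd] at hd'
      exact Option.some.inj hd'
    subst h3
    exact K_disjoint D hj h1 h2

/-- separation of two nodes of the same level -/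
theorem node_separated (D : Par I L) {c : I} {t t' : Hist I L} (h : Valid D c t)
    (h' : Valid D c t') {j j' : ℕ} (hne : node D c t j ≠ node D c t' j') :
    ∃ U W : Set (Pt D), IsOpen U ∧ IsOpen W ∧ node D c t j ∈ U ∧ node D c t' j' ∈ W ∧
      Disjoint U W := by
  by_cases htt : t = t'
  · subst htt
    have hj : j ≠ j' := by
      rintro rfl
      exact hne rfl
    exact ⟨V D (node D c t j), V D (node D c t j'), isOpen_V D _, isOpen_V D _, self_mem_V D _,
      self_mem_V D _, V_node_disjoint D h hj⟩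
  · obtain ⟨s, hs⟩ := Function.ne_iff.1 htt
    have hsc : s < c := by
      by_contra hsc
      have h1 : t s = none := by
        by_contra h2
        exact hsc (h.1.1 h2)
      have h3 : t' s = none := by
        by_contra h2
        exact hsc (h'.1.1 h2)
      exact hs (h1.trans h3.symm)
    refine ⟨V D (node D c t j) ∩ {u | s < lev u}, V D (node D c t' j') ∩ {u | s < lev u},
      (isOpen_V D _).inter (isOpen_lt D s), (isOpen_V D _).inter (isOpen_lt D s),
      ⟨self_mem_V D _, hsc⟩, ⟨self_mem_V D _, hsc⟩, ?_⟩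
    rw [Set.disjoint_left]
    rintro u ⟨hu, hsu⟩ ⟨hu', -⟩
    have hsu' : s < lev u := hsu
    have key : ∀ p : I, s < p → res t p = res t' p → False := by
      intro p hp he
      apply hs
      have := congrFun he s
      rwa [res_apply_of_lt t hp, res_apply_of_lt t' hp] at this
    rcases V_node_common D h h' hu hu' with ⟨h1, h2⟩ | ⟨p, d, d', hd, hd', ⟨h1, h2⟩ | ⟨h1, h2⟩⟩
    · exact hne (h1.symm.trans h2)
    · have hv := valid_res D h (mem_dom_of_eq hd)
      have hv' := valid_res D h' (mem_dom_of_eq hd')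
      have hp : lev u = p := by rw [h1, lev_node]
      rw [hp] at hsu'
      exact key p hsu' (node_inj D hv hv' (h1.symm.trans h2)).1
    · have hv := valid_res D h (mem_dom_of_eq hd)
      have hv' := valid_res D h' (mem_dom_of_eq hd')
      obtain ⟨h3, h4, -⟩ := lev_of_mem_K D h1
      obtain ⟨h5, -, -⟩ := lev_of_mem_K D h2
      have h6 := D.U_disj p _ _ _ h3 h5
      exact key p (hsu'.trans h4) (D.code_inj p _ _ _ _ hv.1 hv'.1 h6).1

theorem separated_of_isolated (D : Par I L) {x y : Pt D} (hxy : x ≠ y) (hl : lev x = lev y)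
    (hx : V D x = {x}) :
    ∃ U W : Set (Pt D), IsOpen U ∧ IsOpen W ∧ x ∈ U ∧ y ∈ W ∧ Disjoint U W := by
  refine ⟨V D x, V D y, isOpen_V D _, isOpen_V D _, self_mem_V D _, self_mem_V D _, ?_⟩
  rw [hx, Set.disjoint_singleton_left]
  intro h
  rcases lev_lt_of_mem D h with h1 | h1
  · exact hxy h1
  · rw [hl] at h1
    exact lt_irrefl _ h1

theorem separated_of_lt (D : Par I L) {x y : Pt D} (hl : lev x < lev y) :
    ∃ U W : Set (Pt D), IsOpen U ∧ IsOpen W ∧ x ∈ U ∧ y ∈ W ∧ Disjoint U W := by
  refine ⟨{u | lev u ≤ lev x}, {u | lev x < lev u}, isOpen_le D _, isOpen_lt D _, le_refl _, hl, ?_⟩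
  rw [Set.disjoint_left]
  intro u hu hu'
  exact absurd hu' (not_lt.2 hu)

theorem separated_symm (D : Par I L) {x y : Pt D}
    (h : ∃ U W : Set (Pt D), IsOpen U ∧ IsOpen W ∧ x ∈ U ∧ y ∈ W ∧ Disjoint U W) :
    ∃ U W : Set (Pt D), IsOpen U ∧ IsOpen W ∧ y ∈ U ∧ x ∈ W ∧ Disjoint U W := by
  obtain ⟨U, W, h1, h2, h3, h4, h5⟩ := h
  exact ⟨W, U, h2, h1, h4, h3, h5.symm⟩

theorem separated_aux (D : Par I L) {x y : Pt D} (hxy : x ≠ y) :
    ∃ U W : Set (Pt D), IsOpen U ∧ IsOpen W ∧ x ∈ U ∧ y ∈ W ∧ Disjoint U W := by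
  rcases lt_trichotomy (lev x) (lev y) with hl | hl | hl
  · exact separated_of_lt D hl
  · rcases node_or_isolated D x with ⟨t, j, hv, hx⟩ | hx
    · rcases node_or_isolated D y with ⟨t', j', hv', hy⟩ | hy
      · rw [← hl] at hv' hy
        rw [hx, hy] at hxy
        have := node_separated D hv hv' hxy
        rwa [← hx, ← hy] at this
      · exact separated_symm D (separated_of_isolated D hxy.symm hl.symm hy)
    · exact separated_of_isolated D hxy hl hx
  · exact separated_symm D (separated_of_lt D hl)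

instance t2 (D : Par I L) : T2Space (Pt D) where
  t2 := fun _ _ hxy => separated_aux D hxy

end Pool.CpS
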