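import Pool.Agent.CpS.Base

/-!
# Thin: a root lemma

PROOF.  For `R : Finset (Fin m)` and `k : Fin m → X` let `T R k = {a | ∀ j ∈ R, x a j = k j}`.
Choose `(R, k)` with `#L < #(T R k)` and `R.card` maximal (`R = ∅` works, any `k`; if `Fin m → X` is
empty then ... `A` is nonempty so `x a` is a `k`).  Put `T = T R k`.  For `j ∉ R` and `u : X`:
`#{a ∈ T | x a j = u} ≤ #L` (otherwise `(insert j R, Function.update k j u)` is larger).  So for every
`b`, `{a ∈ T | ∃ j ∉ R, x a j ∈ S b} = ⋃_{j ∉ R} ⋃_{u ∈ S b} {a ∈ T | x a j = u}` has size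
`≤ ℵ₀ * (#L * #L) = #L < #T`, hence there is `a ∈ T` outside.
-/

set_option autoImplicit false
open Cardinal Set

namespace Pool.CpS

theorem thin {A X J L : Type} (hL : ℵ₀ ≤ #L) (hA : #L < #A) (m : ℕ) (x : A → Fin m → X)
    (S : J → Set X) (hS : ∀ b, #(S b) ≤ #L) :
    ∃ (R : Finset (Fin m)) (T : Set A) (k : Fin m → X), #L < #T ∧
      (∀ a ∈ T, ∀ j ∈ R, x a j = k j) ∧ ∀ b, ∃ a ∈ T, ∀ j, j ∉ R → x a j ∉ S b := by
  classical
  have hne : Nonempty A := by
    rw [← mk_ne_zero_iff]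
    intro h
    rw [h] at hA
    exact absurd hA not_lt_zero
  obtain ⟨a₀⟩ := hne
  have h0 : (∅ : Finset (Fin m)) ∈
      {R : Finset (Fin m) | ∃ k : Fin m → X, #L < #{a : A | ∀ j ∈ R, x a j = k j}} := by
    refine ⟨x a₀, ?_⟩
    have : {a : A | ∀ j ∈ (∅ : Finset (Fin m)), x a j = x a₀ j} = Set.univ := by
      ext a
      simp
    rw [this, mk_univ]
    exact hA
  obtain ⟨R, ⟨k, hk⟩, hmax⟩ := Set.exists_max_image
    {R : Finset (Fin m) | ∃ k : Fin m → X, #L < #{a : A | ∀ j ∈ R, x a j = k j}}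
    Finset.card (Set.toFinite _) ⟨∅, h0⟩
  refine ⟨R, {a : A | ∀ j ∈ R, x a j = k j}, k, hk, fun a ha => ha, ?_⟩
  intro b
  by_contra hcon
  push Not at hcon
  have hsmall : ∀ j, j ∉ R → ∀ u : X, #{a : A | (∀ j ∈ R, x a j = k j) ∧ x a j = u} ≤ #L := by
    intro j hj u
    by_contra hlt
    rw [not_le] at hlt
    have h1 : insert j R ∈
        {R : Finset (Fin m) | ∃ k : Fin m → X, #L < #{a : A | ∀ j ∈ R, x a j = k j}} := by
      refine ⟨Function.update k j u, lt_of_lt_of_le hlt (mk_le_mk_of_subset ?_)⟩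
      rintro a ⟨ha, hau⟩ i hi
      rcases Finset.mem_insert.1 hi with rfl | hi
      · rw [hau, Function.update_self]
      · have hij : i ≠ j := fun h => hj (h ▸ hi)
        rw [Function.update_of_ne hij]
        exact ha i hi
    have h2 := hmax _ h1
    rw [Finset.card_insert_of_notMem hj] at h2
    omega
  have hsub : {a : A | ∀ j ∈ R, x a j = k j} ⊆
      ⋃ p : {j : Fin m // j ∉ R} × S b,
        {a : A | (∀ j ∈ R, x a j = k j) ∧ x a p.1.1 = p.2.1} := by
    intro a ha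
    obtain ⟨j, hj, hjS⟩ := hcon a ha
    rw [mem_iUnion]
    exact ⟨(⟨j, hj⟩, ⟨x a j, hjS⟩), ha, rfl⟩
  have hle : #{a : A | ∀ j ∈ R, x a j = k j} ≤ #L := by
    calc #{a : A | ∀ j ∈ R, x a j = k j}
        ≤ #(⋃ p : {j : Fin m // j ∉ R} × S b,
            {a : A | (∀ j ∈ R, x a j = k j) ∧ x a p.1.1 = p.2.1}) := mk_le_mk_of_subset hsub
      _ ≤ #({j : Fin m // j ∉ R} × S b) * ⨆ p : {j : Fin m // j ∉ R} × S b,
            #{a : A | (∀ j ∈ R, x a j = k j) ∧ x a p.1.1 = p.2.1} := mk_iUnion_le _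
      _ ≤ #L * #L := by
          refine mul_le_mul' ?_ (ciSup_le' fun p => hsmall p.1.1 p.1.2 p.2.1)
          rw [mk_prod, lift_id, lift_id]
          calc #{j : Fin m // j ∉ R} * #(S b) ≤ ℵ₀ * #L :=
                mul_le_mul' (mk_le_aleph0) (hS b)
            _ ≤ #L * #L := mul_le_mul' hL le_rfl
            _ = #L := mul_eq_self hL
      _ = #L := mul_eq_self hL
  exact absurd hk (not_lt.2 hle)

end Pool.CpS
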